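import Mathlib
import Pool.Agent.N604.MW.Stm4
import Pool.Agent.N604.MW.KMeas

/-!
# Project KV (helper604), task BC: Borel-Cantelli
-/

set_option autoImplicit false

namespace Pool.Agent.N664.KV_BC

open Finset MeasureTheory Pool.Agent.N604.MW Filter

lemma summable_aux (C q : ℝ) (n : ℕ) (hq : 0 < q) :
    Summable fun ν : ℕ => C * Real.log (2 * (2 : ℝ) ^ ν) ^ n * ((2 : ℝ) ^ ν) ^ (-q) := by
  have hr : ‖(2 : ℝ) ^ (-q)‖ < 1 := by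
    rw [Real.norm_of_nonneg (by positivity)]
    exact Real.rpow_lt_one_of_one_lt_of_neg (by norm_num) (by linarith)
  have h0 : Summable fun ν : ℕ => (ν : ℝ) ^ n * ((2 : ℝ) ^ (-q)) ^ ν :=
    summable_pow_mul_geometric_of_norm_lt_one n hr
  have h1 : Summable fun ν : ℕ => ((ν + 1 : ℕ) : ℝ) ^ n * ((2 : ℝ) ^ (-q)) ^ (ν + 1) :=
    (summable_nat_add_iff (f := fun ν : ℕ => (ν : ℝ) ^ n * ((2 : ℝ) ^ (-q)) ^ ν) 1).2 h0
  have h2 := h1.mul_left (C * Real.log 2 ^ n * ((2 : ℝ) ^ (-q))⁻¹)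
  refine h2.congr fun ν => ?_
  have e1 : Real.log (2 * (2 : ℝ) ^ ν) = ((ν + 1 : ℕ) : ℝ) * Real.log 2 := by
    rw [← pow_succ', Real.log_pow]
  have e2 : ((2 : ℝ) ^ ν) ^ (-q) = ((2 : ℝ) ^ (-q)) ^ ν := by
    rw [← Real.rpow_natCast, ← Real.rpow_natCast, ← Real.rpow_mul (by norm_num),
      ← Real.rpow_mul (by norm_num), mul_comm]
  have e3 : (2 : ℝ) ^ (-q) ≠ 0 := by positivity
  rw [e1, e2, mul_pow, pow_succ]
  field_simp

lemma bc_gen {Ω : Type*} [MeasurableSpace Ω] (μ : Measure Ω) (S : ℕ → Set Ω) (C q : ℝ) (n ν1 : ℕ)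
    (hq : 0 < q) (h : ∀ ν, ν1 ≤ ν → μ (S ν) ≤
      ENNReal.ofReal (C * Real.log (2 * (2 : ℝ) ^ ν) ^ n * ((2 : ℝ) ^ ν) ^ (-q))) :
    ∀ᵐ θ ∂μ, ∃ ν0 : ℕ, ∀ ν, ν0 ≤ ν → θ ∉ S ν := by
  have h1 : ∀ᵐ θ ∂μ, ∀ᶠ ν in atTop, θ ∉ S (ν + ν1) := by
    apply ae_eventually_notMem
    have h2 := ((summable_nat_add_iff ν1).2 (summable_aux C q n hq)).tsum_ofReal_ne_top
    exact ne_top_of_le_ne_top h2 (ENNReal.tsum_le_tsum fun ν => h (ν + ν1) (by omega))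
  filter_upwards [h1] with θ hθ
  obtain ⟨ν0, h0⟩ := eventually_atTop.1 hθ
  refine ⟨ν0 + ν1, fun ν hν => ?_⟩
  have := h0 (ν - ν1) (by omega)
  rwa [Nat.sub_add_cancel (by omega)] at this

/-- the set `A_X` -/
def AA (s d : ℕ) (X : ℕ) : Set (Fin s → Fin d → ℝ) := {θ | ∀ i l, |θ i l| ≤ Real.sqrt X}

/-- the mean of the product over the lower arcs -/
noncomputable def fI (s d : ℕ) (c b : Fin s → ℝ) (X : ℕ) (η : ℝ) (θ : Fin s → Fin d → ℝ) : ℝ :=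
  ∫ β in Arc 0 η, ∏ i, ‖TQ d (FF d (c i) (b i)) X (θ i) β‖

lemma fI_measurable (s d : ℕ) (c b : Fin s → ℝ) (X : ℕ) (η : ℝ) : Measurable (fI s d c b X η) :=
  intProd_measurable s d (fun i => FF d (c i) (b i)) X 0 η

lemma ofReal_fI (s d : ℕ) (c b : Fin s → ℝ) (X : ℕ) (η : ℝ) (θ : Fin s → Fin d → ℝ) :
    ENNReal.ofReal (fI s d c b X η θ) =
      ∫⁻ β in Arc 0 η, ENNReal.ofReal (∏ i, ‖TQ d (FF d (c i) (b i)) X (θ i) β‖) := by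
  unfold fI
  apply ofReal_integral_eq_lintegral_ofReal
  · apply ContinuousOn.integrableOn_compact (isCompact_Arc 0 η)
    apply Continuous.continuousOn
    exact continuous_finsetProd _ fun i _ => (TQ_continuous d _ X (θ i)).norm
  · exact Eventually.of_forall fun β => Finset.prod_nonneg fun i _ => norm_nonneg _

lemma part1 (h3 : S_L1R) (d s : ℕ) (c b : Fin s → ℝ) (hd : 1 ≤ d) (hs5 : 5 ≤ s)
    (hsd : s ≤ 2 * (d + 1)) (hc : ∀ i, 0 < c i) (r : ℕ) :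
    ∀ᵐ θ ∂(GMs s d), ∃ ν0 : ℕ, ∀ ν, ν0 ≤ ν → θ ∉
      AA s d (2 ^ ν) ∩ {θ | (((2 ^ ν : ℕ) : ℝ)) ^ ((s : ℝ) - d - 1 + 1 / ((r : ℝ) + 1)) <
        fI s d c b (2 ^ ν) (((2 ^ ν : ℕ) : ℝ) ^ (-(d : ℝ) + ((s : ℝ) / 2 - 5 / 4))) θ} := by
  have hs5' : (5 : ℝ) ≤ s := by exact_mod_cast hs5
  have hsd' : (s : ℝ) ≤ 2 * (d + 1) := by exact_mod_cast hsd
  obtain ⟨C, hC, X0, h⟩ := h3 d s c b ((s : ℝ) / 2 - 5 / 4) hd (by omega) hc (by linarith)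
    (by linarith)
  have hr0 : (0 : ℝ) < 1 / ((r : ℝ) + 1) := by positivity
  refine bc_gen (GMs s d) _ (2 * C) (1 / ((r : ℝ) + 1)) (s + 1) X0 hr0 fun ν hν => ?_
  set X : ℕ := 2 ^ ν with hX
  have hXR : (X : ℝ) = (2 : ℝ) ^ ν := by rw [hX]; push_cast; rfl
  have hX1 : (1 : ℝ) ≤ X := by rw [hXR]; exact one_le_pow₀ (by norm_num)
  have hXpos : (0 : ℝ) < X := by linarith
  have hX0 : X0 ≤ X := hν.trans (Nat.lt_two_pow_self).le
  have h4 := h X hX0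
  rw [← hXR]
  set η : ℝ := (X : ℝ) ^ (-(d : ℝ) + ((s : ℝ) / 2 - 5 / 4)) with hη
  set T : ℝ := (X : ℝ) ^ ((s : ℝ) - d - 1 + 1 / ((r : ℝ) + 1)) with hT
  have hTpos : 0 < T := Real.rpow_pos_of_pos hXpos _
  have hm := (fI_measurable s d c b X η)
  have h5 : (GMs s d) (AA s d X ∩ {θ | T < fI s d c b X η θ}) ≤
      ((GMs s d).restrict (AA s d X)) {θ | ENNReal.ofReal T ≤ ENNReal.ofReal (fI s d c b X η θ)} := by
    refine le_trans (measure_mono ?_) (Measure.le_restrict_apply _ _)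
    rintro θ ⟨h1, h2⟩
    exact ⟨ENNReal.ofReal_le_ofReal (le_of_lt h2), h1⟩
  have h6 := meas_ge_le_lintegral_div (μ := (GMs s d).restrict (AA s d X))
    (f := fun θ => ENNReal.ofReal (fI s d c b X η θ)) (ENNReal.measurable_ofReal.comp hm).aemeasurable
    (ε := ENNReal.ofReal T) (by simpa using hTpos) ENNReal.ofReal_ne_top
  have h7 : (∫⁻ θ, ENNReal.ofReal (fI s d c b X η θ) ∂((GMs s d).restrict (AA s d X))) ≤
      ENNReal.ofReal (C * Real.log (2 * X) ^ (s + 1) *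
        ((X : ℝ) ^ ((s : ℝ) - d - 1) + (X : ℝ) ^ ((s : ℝ) / 2 - d + ((s : ℝ) / 2 - 5 / 4)))) := by
    simp_rw [ofReal_fI]
    exact h4
  refine h5.trans (h6.trans ((ENNReal.div_le_div_right h7 _).trans ?_))
  rw [← ENNReal.ofReal_div_of_pos hTpos]
  apply ENNReal.ofReal_le_ofReal
  have hlog : 0 ≤ Real.log (2 * X) := Real.log_nonneg (by linarith)
  have e1 : (X : ℝ) ^ ((s : ℝ) / 2 - d + ((s : ℝ) / 2 - 5 / 4)) ≤ (X : ℝ) ^ ((s : ℝ) - d - 1) :=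
    Real.rpow_le_rpow_of_exponent_le hX1 (by linarith)
  rw [div_le_iff₀ hTpos]
  have e2 : (X : ℝ) ^ (-(1 / ((r : ℝ) + 1))) * T = (X : ℝ) ^ ((s : ℝ) - d - 1) := by
    rw [hT, ← Real.rpow_add hXpos]; congr 1; ring
  calc C * Real.log (2 * X) ^ (s + 1) *
        ((X : ℝ) ^ ((s : ℝ) - d - 1) + (X : ℝ) ^ ((s : ℝ) / 2 - d + ((s : ℝ) / 2 - 5 / 4)))
      ≤ C * Real.log (2 * X) ^ (s + 1) *
        ((X : ℝ) ^ ((s : ℝ) - d - 1) + (X : ℝ) ^ ((s : ℝ) - d - 1)) := by gcongr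
    _ = 2 * C * Real.log (2 * X) ^ (s + 1) * ((X : ℝ) ^ (-(1 / ((r : ℝ) + 1))) * T) := by
        rw [e2]; ring
    _ = _ := by ring

lemma part2 (h1 : S_KEY) (h2 : S_MOM) (d s m : ℕ) (F : Fin s → ℕ → ℝ) (hd : 2 ≤ d) (hm : 1 ≤ m)
    (hmd : 2 * m ≤ d) (hms : 3 * m ≤ s) (hs5 : 5 ≤ s) (hds : d ≤ s) (hsd : s ≤ 2 * (d + 1))
    (h8 : 8 * m ≤ s + 1) (hx : d + 2 + m * (d + 3) ≤ m * s) :
    ∀ᵐ θ ∂(GMs s d), ∃ ν0 : ℕ, ∀ ν, ν0 ≤ ν → θ ∉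
      {θ : Fin s → Fin d → ℝ | ∃ N : ℤ, |(N : ℝ)| ≤ (((2 ^ ν : ℕ) : ℝ)) ^ ((d : ℝ) + 5 / 4) ∧
        (((2 ^ ν : ℕ) : ℝ)) ^ ((s : ℝ) - d - 1 - 1 / (8 * m)) <
        ‖EQ s d F (2 ^ ν) (((2 ^ ν : ℕ) : ℝ) ^ (-(d : ℝ) + ((s : ℝ) / 2 - 5 / 4))) θ N‖} := by
  have hs5' : (5 : ℝ) ≤ s := by exact_mod_cast hs5
  have hsd' : (s : ℝ) ≤ 2 * (d + 1) := by exact_mod_cast hsd
  have h8' : 8 * (m : ℝ) ≤ s + 1 := by exact_mod_cast h8
  have hx' : (d : ℝ) + 2 + m * (d + 3) ≤ m * s := by exact_mod_cast hx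
  have hm' : (1 : ℝ) ≤ m := by exact_mod_cast hm
  obtain ⟨C1, hC1, X0, k1⟩ := h1 m d s ((s : ℝ) / 2 - 5 / 4) hm hd hmd hms hds (by linarith)
  obtain ⟨C2, hC2, k2⟩ := h2 s m (by omega) hm
  refine bc_gen (GMs s d) _ (3 * (C1 * C2)) (1 / 2) (2 * m * s + m) (X0 + 4) (by norm_num)
    fun ν hν => ?_
  set X : ℕ := 2 ^ ν with hX
  have hXR : (X : ℝ) = (2 : ℝ) ^ ν := by rw [hX]; push_cast; rfl
  have hX1 : (1 : ℝ) ≤ X := by rw [hXR]; exact one_le_pow₀ (by norm_num)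
  have hXpos : (0 : ℝ) < X := by linarith
  have hX0 : X0 ≤ X := le_trans (by omega) (Nat.lt_two_pow_self (n := ν)).le
  have hX2 : 2 ≤ X := le_trans (by omega) (Nat.lt_two_pow_self (n := ν)).le
  rw [← hXR]
  set η : ℝ := (X : ℝ) ^ (-(d : ℝ) + ((s : ℝ) / 2 - 5 / 4)) with hη
  have hηpos : 0 < η := Real.rpow_pos_of_pos hXpos _
  have hη2 : η ≤ 1 / 2 := by
    have hX16 : (16 : ℝ) ≤ X := by
      rw [hXR]
      calc (16 : ℝ) = 2 ^ 4 := by norm_num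
        _ ≤ 2 ^ ν := pow_le_pow_right₀ (by norm_num) (by omega)
    calc η ≤ (X : ℝ) ^ (-(1 / 4 : ℝ)) := Real.rpow_le_rpow_of_exponent_le hX1 (by linarith)
      _ ≤ (16 : ℝ) ^ (-(1 / 4 : ℝ)) :=
        Real.rpow_le_rpow_of_nonpos (by norm_num) hX16 (by norm_num)
      _ = 1 / 2 := by
        rw [show (16 : ℝ) = 2 ^ (4 : ℝ) by norm_num, ← Real.rpow_mul (by norm_num)]
        norm_num
  set T : ℝ := (X : ℝ) ^ ((s : ℝ) - d - 1 - 1 / (8 * m)) with hT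
  have hTpos : 0 < T := Real.rpow_pos_of_pos hXpos _
  have hlog : 0 ≤ Real.log (2 * X) := Real.log_nonneg (by linarith)
  have hlogX : 0 ≤ Real.log X := Real.log_nonneg hX1
  have hlogle : Real.log X ≤ Real.log (2 * X) := Real.log_le_log hXpos (by linarith)
  -- one `N`
  set D : ℝ := C2 * Real.log (2 * X) ^ (2 * m * s) *
    (C1 * Real.log X ^ m * (X : ℝ) ^ ((m : ℝ) * ((s : ℝ) - d + 1))) / T ^ (2 * m) with hD
  have hD0 : 0 ≤ D := by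
    rw [hD]; positivity
  have one : ∀ N : ℤ, (GMs s d) {θ | T < ‖EQ s d F X η θ N‖} ≤ ENNReal.ofReal D := by
    intro N
    have hTm : 0 < T ^ (2 * m) := by positivity
    have hmeas : Measurable fun θ : Fin s → Fin d → ℝ => ENNReal.ofReal (‖EQ s d F X η θ N‖ ^ (2 * m)) :=
      ENNReal.measurable_ofReal.comp ((EQ_measurable s d F X η N).norm.pow_const _)
    have h6 := meas_ge_le_lintegral_div (μ := GMs s d) hmeas.aemeasurable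
      (ε := ENNReal.ofReal (T ^ (2 * m))) (by simpa using hTm) ENNReal.ofReal_ne_top
    have h5 : (GMs s d) {θ | T < ‖EQ s d F X η θ N‖} ≤
        (GMs s d) {θ | ENNReal.ofReal (T ^ (2 * m)) ≤ ENNReal.ofReal (‖EQ s d F X η θ N‖ ^ (2 * m))} := by
      apply measure_mono
      intro θ hθ
      exact ENNReal.ofReal_le_ofReal (pow_le_pow_left₀ hTpos.le (le_of_lt hθ) _)
    have h7 := k2 d X F η N hX2 hηpos hη2
    have h8 := k1 X hX0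
    have h9 : ∫⁻ θ, ENNReal.ofReal (‖EQ s d F X η θ N‖ ^ (2 * m)) ∂(GMs s d) ≤
        ENNReal.ofReal (C2 * Real.log (2 * X) ^ (2 * m * s) *
          (C1 * Real.log X ^ m * (X : ℝ) ^ ((m : ℝ) * ((s : ℝ) - d + 1)))) := by
      rw [ENNReal.ofReal_mul (by positivity)]
      exact h7.trans (mul_le_mul_right h8 _)
    refine h5.trans (h6.trans ((ENNReal.div_le_div_right h9 _).trans ?_))
    rw [← ENNReal.ofReal_div_of_pos hTm]
  -- union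
  set K : ℤ := ⌊(X : ℝ) ^ ((d : ℝ) + 5 / 4)⌋ with hK
  have hK0 : 0 ≤ K := Int.floor_nonneg.2 (by positivity)
  have hsub : {θ : Fin s → Fin d → ℝ | ∃ N : ℤ, |(N : ℝ)| ≤ (X : ℝ) ^ ((d : ℝ) + 5 / 4) ∧
      T < ‖EQ s d F X η θ N‖} ⊆ ⋃ N ∈ Finset.Icc (-K) K, {θ | T < ‖EQ s d F X η θ N‖} := by
    rintro θ ⟨N, hN, hθ⟩
    rw [Set.mem_iUnion₂]
    refine ⟨N, ?_, hθ⟩
    rw [Finset.mem_Icc]
    have hN' : |N| ≤ K := by
      rw [hK, Int.le_floor]; push_cast; exact hN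
    exact abs_le.1 hN'
  refine (measure_mono hsub).trans ((measure_biUnion_finset_le _ _).trans ?_)
  refine (Finset.sum_le_card_nsmul _ _ _ fun N _ => one N).trans ?_
  rw [nsmul_eq_mul, ← ENNReal.ofReal_natCast, ← ENNReal.ofReal_mul (by positivity)]
  apply ENNReal.ofReal_le_ofReal
  have hcard : (((Finset.Icc (-K) K).card : ℕ) : ℝ) ≤ 3 * (X : ℝ) ^ ((d : ℝ) + 5 / 4) := by
    rw [Int.card_Icc]
    have e1 : (((K + 1 - -K).toNat : ℕ) : ℝ) = 2 * (K : ℝ) + 1 := by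
      have : (((K + 1 - -K).toNat : ℕ) : ℤ) = 2 * K + 1 := by omega
      exact_mod_cast this
    rw [e1]
    have e2 : (K : ℝ) ≤ (X : ℝ) ^ ((d : ℝ) + 5 / 4) := Int.floor_le _
    have e3 : (1 : ℝ) ≤ (X : ℝ) ^ ((d : ℝ) + 5 / 4) := Real.one_le_rpow hX1 (by positivity)
    linarith
  have hTm : T ^ (2 * m) = (X : ℝ) ^ (((s : ℝ) - d - 1 - 1 / (8 * m)) * ((2 * m : ℕ) : ℝ)) := by
    rw [hT, Real.rpow_mul_natCast hXpos.le]
  have hDle : D ≤ C1 * C2 * Real.log (2 * X) ^ (2 * m * s + m) *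
      ((X : ℝ) ^ ((m : ℝ) * ((s : ℝ) - d + 1)) / T ^ (2 * m)) := by
    rw [hD]
    have e1 : Real.log X ^ m ≤ Real.log (2 * X) ^ m := pow_le_pow_left₀ hlogX hlogle m
    calc C2 * Real.log (2 * X) ^ (2 * m * s) *
          (C1 * Real.log X ^ m * (X : ℝ) ^ ((m : ℝ) * ((s : ℝ) - d + 1))) / T ^ (2 * m)
        ≤ C2 * Real.log (2 * X) ^ (2 * m * s) *
          (C1 * Real.log (2 * X) ^ m * (X : ℝ) ^ ((m : ℝ) * ((s : ℝ) - d + 1))) / T ^ (2 * m) := by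
          gcongr
      _ = _ := by rw [pow_add]; ring
  calc (((Finset.Icc (-K) K).card : ℕ) : ℝ) * D
      ≤ 3 * (X : ℝ) ^ ((d : ℝ) + 5 / 4) * (C1 * C2 * Real.log (2 * X) ^ (2 * m * s + m) *
      ((X : ℝ) ^ ((m : ℝ) * ((s : ℝ) - d + 1)) / T ^ (2 * m))) :=
        mul_le_mul hcard hDle hD0 (by positivity)
    _ = 3 * (C1 * C2) * Real.log (2 * X) ^ (2 * m * s + m) *
        ((X : ℝ) ^ ((d : ℝ) + 5 / 4) * ((X : ℝ) ^ ((m : ℝ) * ((s : ℝ) - d + 1)) / T ^ (2 * m))) := by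
        ring
    _ ≤ 3 * (C1 * C2) * Real.log (2 * X) ^ (2 * m * s + m) * (X : ℝ) ^ (-(1 / 2 : ℝ)) := by
        apply mul_le_mul_of_nonneg_left _ (by positivity)
        rw [hTm, ← Real.rpow_sub hXpos, ← Real.rpow_add hXpos]
        apply Real.rpow_le_rpow_of_exponent_le hX1
        have e4 : 1 / (8 * (m : ℝ)) * ((2 * m : ℕ) : ℝ) = 1 / 4 := by
          push_cast; field_simp; norm_num
        have e5 : ((s : ℝ) - d - 1 - 1 / (8 * m)) * ((2 * m : ℕ) : ℝ) =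
            ((s : ℝ) - d - 1) * (2 * m) - 1 / 4 := by
          rw [sub_mul, e4]; push_cast; ring
        rw [e5]
        nlinarith [hx']

/-- BC -/
theorem bc (h1 : S_KEY) (h2 : S_MOM) (h3 : S_L1R) : S_BC := by
  intro d s m c b hd hm hmd hms hs5 hds hsd h8 hx hc
  have p1 : ∀ᵐ θ ∂(GMs s d), ∀ r : ℕ, ∃ ν0 : ℕ, ∀ ν, ν0 ≤ ν → θ ∉
      AA s d (2 ^ ν) ∩ {θ | (((2 ^ ν : ℕ) : ℝ)) ^ ((s : ℝ) - d - 1 + 1 / ((r : ℝ) + 1)) <
        fI s d c b (2 ^ ν) (((2 ^ ν : ℕ) : ℝ) ^ (-(d : ℝ) + ((s : ℝ) / 2 - 5 / 4))) θ} := by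
    rw [ae_all_iff]
    exact fun r => part1 h3 d s c b (by omega) hs5 hsd hc r
  have p2 := part2 h1 h2 d s m (fun i => FF d (c i) (b i)) hd hm hmd hms hs5 hds hsd h8 hx
  filter_upwards [p1, p2] with θ hθ1 hθ2
  constructor
  · intro ε hε
    obtain ⟨r, hr⟩ := exists_nat_one_div_lt hε
    obtain ⟨ν0, h0⟩ := hθ1 r
    obtain ⟨B, hB⟩ := exists_nat_ge (∑ i, ∑ l, |θ i l|)
    refine ⟨ν0 + B ^ 2, fun ν X hν hX => ?_⟩
    subst hX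
    have hX1 : (1 : ℝ) ≤ ((2 ^ ν : ℕ) : ℝ) := by
      push_cast; exact one_le_pow₀ (by norm_num)
    have hA : θ ∈ AA s d (2 ^ ν) := by
      intro i l
      have e1 : |θ i l| ≤ B := by
        refine le_trans ?_ hB
        refine le_trans ?_ (single_le_sum (f := fun i => ∑ l, |θ i l|)
          (fun i _ => Finset.sum_nonneg fun l _ => abs_nonneg (θ i l)) (mem_univ i))
        exact single_le_sum (f := fun l => |θ i l|) (fun l _ => abs_nonneg (θ i l)) (mem_univ l)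
      refine e1.trans (Real.le_sqrt_of_sq_le ?_)
      have e2 : B ^ 2 ≤ 2 ^ ν := le_trans (by omega) (Nat.lt_two_pow_self (n := ν)).le
      exact_mod_cast e2
    have h2' := h0 ν (by omega)
    have h3' : ¬ ((((2 ^ ν : ℕ) : ℝ)) ^ ((s : ℝ) - d - 1 + 1 / ((r : ℝ) + 1)) <
        fI s d c b (2 ^ ν) (((2 ^ ν : ℕ) : ℝ) ^ (-(d : ℝ) + ((s : ℝ) / 2 - 5 / 4))) θ) :=
      fun h => h2' ⟨hA, h⟩
    refine (not_lt.1 h3').trans ?_
    exact Real.rpow_le_rpow_of_exponent_le hX1 (by linarith)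
  · have hm' : (1 : ℝ) ≤ m := by exact_mod_cast hm
    refine ⟨1 / (8 * m), by positivity, ?_⟩
    obtain ⟨ν0, h0⟩ := hθ2
    refine ⟨ν0, fun ν X hν hX N hN => ?_⟩
    subst hX
    have h2' := h0 ν hν
    by_contra hcon
    exact h2' ⟨N, hN, not_le.1 hcon⟩

end Pool.Agent.N664.KV_BC
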