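import Pool.Agent.N652.OM.Stm

/-!
# Project OM (helper652), leaf GLF (helper664): `GL_3` of an LEF ring is LEF
-/

set_option autoImplicit false

namespace Pool.Agent.N664.OMGLF

open Pool.Agent.N44.NS (LEF)
open Pool.Agent.N652.OM

/-- the map is multiplicative on matrices with entries in the given finite set -/
theorem map_mul_aux {R Q : Type} [Ring R] [Ring Q] (φ : R → Q) (A0 A : Set R)
    (hA0 : A0 ⊆ A) (hA1 : ∀ a ∈ A0, ∀ b ∈ A0, a * b ∈ A)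
    (hA2 : ∀ a ∈ A0, ∀ b ∈ A0, ∀ c ∈ A0, ∀ d ∈ A0, a * b + c * d ∈ A)
    (hm : ∀ a ∈ A, ∀ b ∈ A, φ (a * b) = φ a * φ b) (ha : ∀ a ∈ A, ∀ b ∈ A, φ (a + b) = φ a + φ b)
    (X Y : Matrix (Fin 3) (Fin 3) R) (hX : ∀ i j, X i j ∈ A0) (hY : ∀ i j, Y i j ∈ A0) :
    (X * Y).map φ = X.map φ * Y.map φ := by
  ext i j
  rw [Matrix.map_apply, Matrix.mul_apply, Matrix.mul_apply, Fin.sum_univ_three,
    Fin.sum_univ_three]
  simp only [Matrix.map_apply]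
  rw [ha _ (hA2 _ (hX i 0) _ (hY 0 j) _ (hX i 1) _ (hY 1 j)) _ (hA1 _ (hX i 2) _ (hY 2 j)),
    ha _ (hA1 _ (hX i 0) _ (hY 0 j)) _ (hA1 _ (hX i 1) _ (hY 1 j)),
    hm _ (hA0 (hX i 0)) _ (hA0 (hY 0 j)), hm _ (hA0 (hX i 1)) _ (hA0 (hY 1 j)),
    hm _ (hA0 (hX i 2)) _ (hA0 (hY 2 j))]

theorem main : Pool.Agent.N652.OM.S_GLF := by
  classical
  intro R _ hR E
  -- the finite sets
  obtain ⟨E1, hE1⟩ : ∃ E1 : Finset (Matrix (Fin 3) (Fin 3) R)ˣ, E1 = E ∪ E.image (fun X => X⁻¹) :=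
    ⟨_, rfl⟩
  obtain ⟨A0, hA0⟩ : ∃ A0 : Finset R, A0 = E1.biUnion fun X =>
    (Finset.univ : Finset (Fin 3 × Fin 3)).image fun ij => X.1 ij.1 ij.2 := ⟨_, rfl⟩
  obtain ⟨A1, hA1⟩ : ∃ A1 : Finset R, A1 = (A0 ×ˢ A0).image fun p => p.1 * p.2 := ⟨_, rfl⟩
  obtain ⟨A2, hA2⟩ : ∃ A2 : Finset R, A2 = (A1 ×ˢ A1).image fun p => p.1 + p.2 := ⟨_, rfl⟩
  obtain ⟨Q, rQ, fQ, φ, h1, h0, hma, hinj⟩ := hR (A0 ∪ A1 ∪ A2)
  have hent : ∀ X ∈ E1, ∀ i j, X.1 i j ∈ A0 := by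
    intro X hX i j
    rw [hA0, Finset.mem_biUnion]
    exact ⟨X, hX, Finset.mem_image.2 ⟨(i, j), Finset.mem_univ _, rfl⟩⟩
  have hin : ∀ X ∈ E, X ∈ E1 := fun X hX => by
    rw [hE1]
    exact Finset.mem_union_left _ hX
  have hin' : ∀ X ∈ E, X⁻¹ ∈ E1 := fun X hX => by
    rw [hE1]
    exact Finset.mem_union_right _ (Finset.mem_image.2 ⟨X, hX, rfl⟩)
  have m0 : ∀ a ∈ A0, a ∈ A0 ∪ A1 ∪ A2 := fun a ha =>
    Finset.mem_union_left _ (Finset.mem_union_left _ ha)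
  have m1' : ∀ a ∈ A0, ∀ b ∈ A0, a * b ∈ A1 := fun a ha b hb => by
    rw [hA1]
    exact Finset.mem_image.2 ⟨(a, b), Finset.mem_product.2 ⟨ha, hb⟩, rfl⟩
  have m1 : ∀ a ∈ A0, ∀ b ∈ A0, a * b ∈ A0 ∪ A1 ∪ A2 := fun a ha b hb =>
    Finset.mem_union_left _ (Finset.mem_union_right _ (m1' a ha b hb))
  have m2 : ∀ a ∈ A0, ∀ b ∈ A0, ∀ c ∈ A0, ∀ d ∈ A0, a * b + c * d ∈ A0 ∪ A1 ∪ A2 :=
    fun a ha b hb c hc d hd => by
    refine Finset.mem_union_right _ ?_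
    rw [hA2]
    exact Finset.mem_image.2 ⟨(a * b, c * d), Finset.mem_product.2 ⟨m1' a ha b hb,
      m1' c hc d hd⟩, rfl⟩
  have hmul : ∀ X ∈ E1, ∀ Y ∈ E1, (X.1 * Y.1).map φ = X.1.map φ * Y.1.map φ := by
    intro X hX Y hY
    exact map_mul_aux φ (A0 : Set R) (A0 ∪ A1 ∪ A2 : Finset R) (fun a ha => m0 a ha)
      (fun a ha b hb => m1 a ha b hb) (fun a ha b hb c hc d hd => m2 a ha b hb c hc d hd)
      (fun a ha b hb => (hma a ha b hb).1) (fun a ha b hb => (hma a ha b hb).2) X.1 Y.1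
      (fun i j => hent X hX i j) (fun i j => hent Y hY i j)
  have hone : (1 : Matrix (Fin 3) (Fin 3) R).map φ = 1 := by
    ext i j
    rw [Matrix.map_apply, Matrix.one_apply, Matrix.one_apply]
    split_ifs
    · exact h1
    · exact h0
  let ψ : (Matrix (Fin 3) (Fin 3) R)ˣ → (Matrix (Fin 3) (Fin 3) Q)ˣ := fun X =>
    if hX : X ∈ E then
      { val := X.1.map φ
        inv := (X⁻¹).1.map φ
        val_inv := by
          rw [← hmul X (hin X hX) X⁻¹ (hin' X hX), ← Units.val_mul, mul_inv_cancel, Units.val_one,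
            hone]
        inv_val := by
          rw [← hmul X⁻¹ (hin' X hX) X (hin X hX), ← Units.val_mul, inv_mul_cancel, Units.val_one,
            hone] }
    else 1
  have hψ : ∀ X ∈ E, (ψ X).1 = X.1.map φ := by
    intro X hX
    show (dite (X ∈ E) _ _ : (Matrix (Fin 3) (Fin 3) Q)ˣ).1 = _
    rw [dif_pos hX]
  refine ⟨(Matrix (Fin 3) (Fin 3) Q)ˣ, inferInstance, inferInstance, ψ, ?_, ?_⟩
  · intro X hX Y hY hXY
    apply Units.ext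
    rw [hψ _ hXY, Units.val_mul, Units.val_mul, hψ X hX, hψ Y hY, hmul X (hin X hX) Y (hin Y hY)]
  · intro X hX Y hY hne heq
    apply hne
    apply Units.ext
    ext i j
    have h2 := congrArg (fun U : (Matrix (Fin 3) (Fin 3) Q)ˣ => U.1 i j) heq
    simp only [hψ X hX, hψ Y hY, Matrix.map_apply] at h2
    by_contra hcon
    exact hinj _ (m0 _ (hent X (hin X hX) i j)) _ (m0 _ (hent Y (hin Y hY) i j)) hcon h2

end Pool.Agent.N664.OMGLF
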