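import Pool.Agent.N657.QR.Stm

/-!
# QR/REFL: one reflection on the torus, bond fields
-/

set_option linter.unusedSectionVars false
set_option linter.style.haveILetI false
set_option linter.unusedSimpArgs false

namespace Pool.Agent.N664.QR_REFL

open Pool.Agent.N657.QR Finset

/-! ### Arithmetic in `ZMod L` -/

section Arith

variable {L : ℕ} [NeZero L]

lemma val_add_one' (t : ZMod L) : (t + 1).val = if t.val + 1 = L then 0 else t.val + 1 := by
  have hL : 0 < L := Nat.pos_of_ne_zero (NeZero.ne L)
  have ht := ZMod.val_lt t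
  have e : t + 1 = ((t.val + 1 : ℕ) : ZMod L) := by simp
  split_ifs with h
  · rw [e, h]; simp
  · rw [e]; exact ZMod.val_natCast_of_lt (by omega)

lemma val_neg_one_sub (t : ZMod L) : (-1 - t).val = L - 1 - t.val := by
  have hL : 0 < L := Nat.pos_of_ne_zero (NeZero.ne L)
  have ht := ZMod.val_lt t
  have e : -1 - t = ((L - 1 - t.val : ℕ) : ZMod L) := by
    rw [Nat.sub_sub, Nat.cast_sub (by omega)]
    simp
    ring
  rw [e]; exact ZMod.val_natCast_of_lt (by omega)

lemma ar_side (hL2 : Even L) (t : ZMod L) :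
    decide ((-1 - t).val < L / 2) = !decide (t.val < L / 2) := by
  have hL : 0 < L := Nat.pos_of_ne_zero (NeZero.ne L)
  have ht := ZMod.val_lt t
  obtain ⟨m, hm⟩ := hL2
  rw [val_neg_one_sub]
  by_cases h : t.val < L / 2
  · have : ¬ (L - 1 - t.val < L / 2) := by omega
    simp [h, this]
  · have : (L - 1 - t.val < L / 2) := by omega
    simp [h, this]

lemma ar_cross (hL2 : Even L) (t : ZMod L) :
    decide ((t + 1).val < L / 2) ≠ decide (t.val < L / 2) ↔ t + 1 = -1 - t := by
  have hL : 0 < L := Nat.pos_of_ne_zero (NeZero.ne L)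
  have ht := ZMod.val_lt t
  obtain ⟨m, hm⟩ := hL2
  rw [← (ZMod.val_injective L).eq_iff, val_neg_one_sub, val_add_one']
  split_ifs with h
  · have h1 : 0 < L / 2 := by omega
    have h2 : ¬ (t.val < L / 2) := by omega
    simp only [h1, h2]
    simp
    omega
  · by_cases h1 : t.val + 1 < L / 2
    · have h2 : t.val < L / 2 := by omega
      simp only [h1, h2]
      simp
      omega
    · by_cases h2 : t.val < L / 2
      · simp only [h1, h2]
        simp
        omega
      · simp only [h1, h2]
        simp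
        omega

end Arith

section Torus

variable {d L : ℕ} [NeZero L]

/-! ### The reflection -/

lemma rho_rho (i : Fin d) (c : ZMod L) (x : Fin d → ZMod L) : rho i c (rho i c x) = x := by
  unfold rho
  ext j
  by_cases hj : j = i
  · subst hj; simp
  · simp [hj]

lemma rho_add_i (i : Fin d) (c : ZMod L) (x : Fin d → ZMod L) :
    rho i c (x + ee i) = rho i c x - ee i := by
  unfold rho ee
  ext j
  by_cases hj : j = i
  · subst hj; simp; ring
  · simp [hj]

lemma rho_sub_i (i : Fin d) (c : ZMod L) (x : Fin d → ZMod L) :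
    rho i c (x - ee i) = rho i c x + ee i := by
  unfold rho ee
  ext j
  by_cases hj : j = i
  · subst hj; simp; ring
  · simp [hj]

lemma rho_add_j (i : Fin d) (c : ZMod L) (x : Fin d → ZMod L) {j : Fin d} (hij : j ≠ i) :
    rho i c (x + ee j) = rho i c x + ee j := by
  unfold rho ee
  ext k
  by_cases hk : k = i
  · subst hk; simp [hij.symm]
  · simp [hk]

lemma rho_sub_j (i : Fin d) (c : ZMod L) (x : Fin d → ZMod L) {j : Fin d} (hij : j ≠ i) :
    rho i c (x - ee j) = rho i c x - ee j := by
  unfold rho ee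
  ext k
  by_cases hk : k = i
  · subst hk; simp [hij.symm]
  · simp [hk]

lemma side_rho (hL2 : Even L) (i : Fin d) (c : ZMod L) (x : Fin d → ZMod L) :
    side i c (rho i c x) = !side i c x := by
  unfold side rho
  rw [← ar_side hL2 (x i - c)]
  have : (Function.update x i (2 * c - 1 - x i)) i - c = -1 - (x i - c) := by
    simp; ring
  rw [this]

lemma side_add_j (i : Fin d) (c : ZMod L) (x : Fin d → ZMod L) {j : Fin d} (hij : j ≠ i) :
    side i c (x + ee j) = side i c x := by
  unfold side ee
  simp [hij.symm]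

lemma side_sub_j (i : Fin d) (c : ZMod L) (x : Fin d → ZMod L) {j : Fin d} (hij : j ≠ i) :
    side i c (x - ee j) = side i c x := by
  unfold side ee
  simp [hij.symm]

lemma cross_iff (hL2 : Even L) (i : Fin d) (c : ZMod L) (x : Fin d → ZMod L) :
    side i c (x + ee i) ≠ side i c x ↔ x + ee i = rho i c x := by
  have h := ar_cross hL2 (x i - c)
  have e1 : side i c (x + ee i) = decide ((x i - c + 1).val < L / 2) := by
    unfold side ee
    have : (x + (Pi.single i (1 : ZMod L) : Fin d → ZMod L)) i - c = x i - c + 1 := by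
      simp; ring
    rw [this]
  rw [e1]
  unfold side
  rw [h]
  constructor
  · intro h2
    unfold rho ee
    ext j
    by_cases hj : j = i
    · subst hj
      simp
      linear_combination h2
    · simp [hj]
  · intro h2
    have h3 := congrFun h2 i
    unfold rho ee at h3
    simp at h3
    linear_combination h3

lemma cross_iff' (hL2 : Even L) (i : Fin d) (c : ZMod L) (x : Fin d → ZMod L) :
    side i c (x - ee i) ≠ side i c x ↔ x - ee i = rho i c x := by
  have h := cross_iff hL2 i c (x - ee i)
  rw [sub_add_cancel, rho_sub_i] at h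
  rw [ne_comm, h]
  constructor
  · intro h2; exact sub_eq_iff_eq_add.2 h2
  · intro h2; exact sub_eq_iff_eq_add.1 h2

lemma one_ne_zero' (hL2 : Even L) : (1 : ZMod L) ≠ 0 := by
  have hL : 0 < L := Nat.pos_of_ne_zero (NeZero.ne L)
  obtain ⟨m, hm⟩ := hL2
  haveI : Fact (1 < L) := ⟨by omega⟩
  exact one_ne_zero

lemma add_ee_inj (hL2 : Even L) (x : Fin d → ZMod L) (i c' : Fin d) (c : ZMod L)
    (h : rho i c x = x + ee c') : c' = i := by
  by_contra hne
  have h1 := congrFun h c'
  unfold rho ee at h1
  simp [hne] at h1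
  exact one_ne_zero' hL2 h1

/-- Indicator of a bond between the halves, at its lower end. -/
noncomputable def PP (i : Fin d) (c : ZMod L) (x : Fin d → ZMod L) : ℝ :=
  if x + ee i = rho i c x then 1 else 0

/-- Indicator of a bond between the halves, at its upper end. -/
noncomputable def MM (i : Fin d) (c : ZMod L) (x : Fin d → ZMod L) : ℝ :=
  if x - ee i = rho i c x then 1 else 0

lemma MM_eq (i : Fin d) (c : ZMod L) (x : Fin d → ZMod L) :
    MM i c x = PP i c (x - ee i) := by
  unfold MM PP
  have : (x - ee i = rho i c x) ↔ (x - ee i + ee i = rho i c (x - ee i)) := by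
    rw [rho_sub_i, sub_add_cancel]
    exact sub_eq_iff_eq_add
  simp only [this]

lemma MM_rho (i : Fin d) (c : ZMod L) (x : Fin d → ZMod L) :
    MM i c (rho i c x) = PP i c x := by
  unfold MM PP
  have : (rho i c x - ee i = rho i c (rho i c x)) ↔ (x + ee i = rho i c x) := by
    rw [rho_rho]
    constructor
    · intro h2; exact (sub_eq_iff_eq_add.1 h2).symm
    · intro h2; exact sub_eq_iff_eq_add.2 h2.symm
  simp only [this]

lemma PP_rho (i : Fin d) (c : ZMod L) (x : Fin d → ZMod L) :
    PP i c (rho i c x) = MM i c x := by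
  rw [← MM_rho, rho_rho]

lemma PP_cases (i : Fin d) (c : ZMod L) (x : Fin d → ZMod L) : PP i c x = 0 ∨ PP i c x = 1 := by
  unfold PP; split_ifs <;> simp

lemma MM_cases (i : Fin d) (c : ZMod L) (x : Fin d → ZMod L) : MM i c x = 0 ∨ MM i c x = 1 := by
  unfold MM; split_ifs <;> simp

/-! ### The hopping -/

/-- Symmetrised hopping. -/
noncomputable def ws (J : ℝ) (x y : Fin d → ZMod L) : ℝ := (nnw J x y + nnw J y x) / 2

lemma ws_comm (J : ℝ) (x y : Fin d → ZMod L) : ws J x y = ws J y x := by
  unfold ws; ring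

lemma nnw_rho (hL2 : Even L) (J : ℝ) (i : Fin d) (c : ZMod L) (x : Fin d → ZMod L) :
    nnw J x (rho i c x) = J * PP i c x := by
  unfold nnw PP
  rw [Finset.sum_eq_single i]
  · by_cases h : rho i c x = x + ee i
    · rw [if_pos h, if_pos h.symm]; ring
    · rw [if_neg h, if_neg (fun h' => h h'.symm)]; ring
  · intro j _ hj
    rw [if_neg]
    intro h
    exact hj (add_ee_inj hL2 x i j c h)
  · intro h; exact absurd (Finset.mem_univ i) h

lemma ws_rho (hL2 : Even L) (J : ℝ) (i : Fin d) (c : ZMod L) (x : Fin d → ZMod L) :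
    ws J x (rho i c x) = J * (PP i c x + MM i c x) / 2 := by
  unfold ws
  rw [nnw_rho hL2]
  have h := nnw_rho hL2 J i c (rho i c x)
  rw [rho_rho, PP_rho] at h
  rw [h]; ring

lemma ws_rho_rho (J : ℝ) (i : Fin d) (c : ZMod L) (x y : Fin d → ZMod L) :
    ws J (rho i c x) (rho i c y) = ws J x y := by
  have key : ∀ x y : Fin d → ZMod L, nnw J (rho i c x) (rho i c y)
      = nnw J x y - (if y = x + ee i then J else 0) + (if x = y + ee i then J else 0) := by
    intro x y
    unfold nnw
    rw [← Finset.add_sum_erase _ _ (Finset.mem_univ i),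
      ← Finset.add_sum_erase (Finset.univ) (fun j => if y = x + ee j then J else 0)
        (Finset.mem_univ i)]
    have e1 : (rho i c y = rho i c x + ee i) ↔ (x = y + ee i) := by
      constructor
      · intro h
        have h2 := congrArg (rho i c) h
        rw [rho_rho, rho_add_i, rho_rho] at h2
        rw [h2]; simp
      · intro h
        rw [h, rho_add_i]; simp
    have e2 : ∀ j ∈ Finset.univ.erase i, (if rho i c y = rho i c x + ee j then J else 0)
        = (if y = x + ee j then J else 0) := by
      intro j hj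
      have hji : j ≠ i := Finset.ne_of_mem_erase hj
      have e3 : (rho i c y = rho i c x + ee j) ↔ (y = x + ee j) := by
        rw [← rho_add_j i c x hji]
        constructor
        · intro h
          have h2 := congrArg (rho i c) h
          rwa [rho_rho, rho_rho] at h2
        · intro h; rw [h]
      simp only [e3]
    rw [Finset.sum_congr rfl e2]
    simp only [e1]
    ring
  unfold ws
  rw [key x y, key y x]
  ring

lemma ws_zero (hL2 : Even L) (J : ℝ) (i : Fin d) (c : ZMod L) (x y : Fin d → ZMod L)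
    (hs : side i c x ≠ side i c y) (hr : y ≠ rho i c x) : ws J x y = 0 := by
  have key : ∀ x y : Fin d → ZMod L, side i c x ≠ side i c y → y ≠ rho i c x →
      nnw J x y = 0 := by
    intro x y hs hr
    unfold nnw
    apply Finset.sum_eq_zero
    intro j _
    rw [if_neg]
    intro h
    by_cases hj : j = i
    · subst hj
      rw [h] at hs hr
      exact hr ((cross_iff hL2 j c x).1 (fun h' => hs h'.symm))
    · rw [h, side_add_j i c x hj] at hs
      exact hs rfl
  unfold ws
  rw [key x y hs hr, key y x (fun h => hs h.symm) (fun h => hr (by rw [h, rho_rho]))]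
  simp

/-! ### Site field of a bond field -/

/-- Site field of a bond field. -/
noncomputable def kf (J : ℝ) (h : (Fin d → ZMod L) → Fin d → ℝ) (x : Fin d → ZMod L) : ℝ :=
  J * ∑ j, (h x j - h (x - ee j) j)

lemma GK_eq (hB : S_BAS) (U J : ℝ) (h : (Fin d → ZMod L) → Fin d → ℝ)
    (ψ : ((Fin d → ZMod L) → ℤ) → ℝ) :
    GK U J h ψ = HH U (ws J) (kf J h) ψ + J / 2 * (∑ x, ∑ j, h x j ^ 2) * nr ψ := by
  unfold GK HH
  have e1 : (∑ x, ∑ y, ws J x y * cr x y ψ) = J * ∑ x, ∑ j : Fin d, cr x (x + ee j) ψ := by
    have a1 : (∑ x, ∑ y, ws J x y * cr x y ψ)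
        = ((∑ x, ∑ y, nnw J x y * cr x y ψ) + ∑ x, ∑ y, nnw J y x * cr x y ψ) / 2 := by
      rw [← Finset.sum_add_distrib, Finset.sum_div]
      refine Finset.sum_congr rfl fun x _ => ?_
      rw [← Finset.sum_add_distrib, Finset.sum_div]
      refine Finset.sum_congr rfl fun y _ => ?_
      unfold ws; ring
    have a2 : (∑ x : Fin d → ZMod L, ∑ y, nnw J y x * cr x y ψ)
        = ∑ x, ∑ y, nnw J x y * cr x y ψ := by
      rw [Finset.sum_comm]
      refine Finset.sum_congr rfl fun x _ => ?_
      refine Finset.sum_congr rfl fun y _ => ?_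
      rw [hB.crcomm y x]
    have a3 : (∑ x : Fin d → ZMod L, ∑ y, nnw J x y * cr x y ψ)
        = J * ∑ x, ∑ j : Fin d, cr x (x + ee j) ψ := by
      rw [Finset.mul_sum]
      refine Finset.sum_congr rfl fun x _ => ?_
      unfold nnw
      simp_rw [Finset.sum_mul]
      rw [Finset.sum_comm, Finset.mul_sum]
      refine Finset.sum_congr rfl fun j _ => ?_
      simp [Finset.sum_ite_eq]
    rw [a1, a2, a3]; ring
  have e2 : (∑ x, kf J h x * xx x ψ)
      = J * ∑ x, ∑ j : Fin d, h x j * (xx x ψ - xx (x + ee j) ψ) := by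
    have b1 : (∑ x, kf J h x * xx x ψ)
        = J * ((∑ x, ∑ j : Fin d, h x j * xx x ψ)
          - ∑ j : Fin d, ∑ x, h (x - ee j) j * xx x ψ) := by
      rw [Finset.sum_comm (s := (Finset.univ : Finset (Fin d))), ← Finset.sum_sub_distrib,
        Finset.mul_sum]
      refine Finset.sum_congr rfl fun x _ => ?_
      unfold kf
      rw [← Finset.sum_sub_distrib, mul_assoc, Finset.sum_mul]
      congr 1
      refine Finset.sum_congr rfl fun j _ => ?_
      ring
    have b2 : (∑ j : Fin d, ∑ x, h (x - ee j) j * xx x ψ)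
        = ∑ j : Fin d, ∑ x, h x j * xx (x + ee j) ψ := by
      refine Finset.sum_congr rfl fun j _ => ?_
      rw [← Equiv.sum_comp (Equiv.addRight (ee j : Fin d → ZMod L))]
      refine Finset.sum_congr rfl fun x _ => ?_
      simp
    rw [b1, b2, Finset.sum_comm (s := (Finset.univ : Finset (Fin d))),
      ← Finset.sum_sub_distrib]
    congr 1
    refine Finset.sum_congr rfl fun x _ => ?_
    rw [← Finset.sum_sub_distrib]
    refine Finset.sum_congr rfl fun j _ => ?_
    ring
  rw [e1, e2]

/-! ### The reflected bond fields -/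

lemma bne_iff {a b : Bool} : ¬ a = b ↔ (!a) = b := by cases a <;> cases b <;> simp

lemma rf_rho_j (hL2 : Even L) (i : Fin d) (c : ZMod L) (s : Bool)
    (h : (Fin d → ZMod L) → Fin d → ℝ) (x : Fin d → ZMod L) {j : Fin d} (hj : j ≠ i) :
    rf i c s h (rho i c x) j = rf i c s h x j := by
  unfold rf
  simp only [if_neg hj]
  rw [side_rho hL2, rho_rho]
  by_cases hs : side i c x = s
  · rw [if_neg (by rw [hs]; simp), if_pos hs]
  · rw [if_pos (bne_iff.1 hs), if_neg hs]

lemma rf_rho_i (hL2 : Even L) (i : Fin d) (c : ZMod L) (s : Bool)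
    (h : (Fin d → ZMod L) → Fin d → ℝ) (x : Fin d → ZMod L) :
    rf i c s h (rho i c (x + ee i)) i = -rf i c s h x i := by
  have e : rho i c (x + ee i) + ee i = rho i c x := by rw [rho_add_i]; simp
  have s1 : side i c (rho i c (x + ee i)) = !side i c (x + ee i) := side_rho hL2 i c _
  have s2 : side i c (rho i c (x + ee i) + ee i) = !side i c x := by
    rw [e]; exact side_rho hL2 i c x
  unfold rf
  simp only [if_true]
  rw [s1, s2, e, rho_rho]
  by_cases h1 : side i c x = s
  · by_cases h2 : side i c (x + ee i) = s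
    · rw [h1, h2]; simp
    · rw [bne_iff] at h2
      rw [h1, ← h2]
      cases side i c (x + ee i) <;> simp
  · rw [bne_iff] at h1
    by_cases h2 : side i c (x + ee i) = s
    · rw [h2, ← h1]
      cases side i c x <;> simp
    · rw [bne_iff] at h2
      rw [h1, h2]
      have h3 : side i c x ≠ s := bne_iff.2 h1
      have h4 : side i c (x + ee i) ≠ s := bne_iff.2 h2
      simp [h3, h4]

lemma kf_rf_rho (hL2 : Even L) (J : ℝ) (i : Fin d) (c : ZMod L) (s : Bool)
    (h : (Fin d → ZMod L) → Fin d → ℝ) (x : Fin d → ZMod L) :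
    kf J (rf i c s h) (rho i c x) = kf J (rf i c s h) x := by
  unfold kf
  congr 1
  refine Finset.sum_congr rfl fun j _ => ?_
  by_cases hj : j = i
  · subst hj
    have h1 := rf_rho_i hL2 j c s h x
    have h2 := rf_rho_i hL2 j c s h (x - ee j)
    rw [sub_add_cancel] at h2
    rw [rho_add_i] at h1
    rw [h1, h2]; ring
  · rw [← rho_sub_j i c x hj, rf_rho_j hL2 i c s h x hj, rf_rho_j hL2 i c s h _ hj]

lemma kf_cut (hL2 : Even L) (J : ℝ) (i : Fin d) (c : ZMod L) (s : Bool)
    (h : (Fin d → ZMod L) → Fin d → ℝ) (x : Fin d → ZMod L) (hs : side i c x = s) :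
    kf J (rf i c s h) x = kf J h x - J * (PP i c x * h x i - MM i c x * h (x - ee i) i) := by
  unfold kf
  rw [← Finset.add_sum_erase _ _ (Finset.mem_univ i),
    ← Finset.add_sum_erase (Finset.univ) (fun j => h x j - h (x - ee j) j) (Finset.mem_univ i)]
  have e2 : ∀ j ∈ Finset.univ.erase i, rf i c s h x j - rf i c s h (x - ee j) j
      = h x j - h (x - ee j) j := by
    intro j hj
    have hji : j ≠ i := Finset.ne_of_mem_erase hj
    unfold rf
    simp only [if_neg hji]
    rw [side_sub_j i c x hji, if_pos hs, if_pos hs]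
  rw [Finset.sum_congr rfl e2]
  have e3 : rf i c s h x i = (1 - PP i c x) * h x i := by
    unfold rf PP
    simp only [if_true]
    by_cases hc : x + ee i = rho i c x
    · have h1 := (cross_iff hL2 i c x).2 hc
      rw [hs] at h1
      rw [if_pos hc, if_neg (fun h' => h1 h'.2), if_neg (fun h' => h'.1 hs)]
      ring
    · have h1 : side i c (x + ee i) = side i c x := by
        by_contra h'
        exact hc ((cross_iff hL2 i c x).1 h')
      rw [hs] at h1
      rw [if_neg hc, if_pos ⟨hs, h1⟩]
      ring
  have e4 : rf i c s h (x - ee i) i = (1 - MM i c x) * h (x - ee i) i := by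
    unfold rf MM
    simp only [if_true]
    rw [sub_add_cancel]
    by_cases hc : x - ee i = rho i c x
    · have h1 := (cross_iff' hL2 i c x).2 hc
      rw [hs] at h1
      rw [if_pos hc, if_neg (fun h' => h1 h'.1), if_neg (fun h' => h'.2 hs)]
      ring
    · have h1 : side i c (x - ee i) = side i c x := by
        by_contra h'
        exact hc ((cross_iff' hL2 i c x).1 h')
      rw [hs] at h1
      rw [if_neg hc, if_pos ⟨h1, hs⟩]
      ring
  rw [e3, e4]
  ring

/-! ### The constants -/

/-- The shift of the field. -/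
noncomputable def et (i : Fin d) (c : ZMod L) (h : (Fin d → ZMod L) → Fin d → ℝ)
    (x : Fin d → ZMod L) : ℝ :=
  (PP i c x * h x i - MM i c x * h (x - ee i) i) / (PP i c x + MM i c x)

lemma ws_et (hL2 : Even L) (J : ℝ) (i : Fin d) (c : ZMod L)
    (h : (Fin d → ZMod L) → Fin d → ℝ) (x : Fin d → ZMod L) :
    2 * ws J x (rho i c x) * et i c h x
      = J * (PP i c x * h x i - MM i c x * h (x - ee i) i) := by
  rw [ws_rho hL2]
  unfold et
  rcases PP_cases i c x with h1 | h1 <;> rcases MM_cases i c x with h2 | h2 <;>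
    rw [h1, h2]
  · simp
  · field_simp
  · field_simp
  · field_simp

lemma ws_et_sq (hL2 : Even L) {J : ℝ} (hJ : 0 ≤ J) (i : Fin d) (c : ZMod L)
    (h : (Fin d → ZMod L) → Fin d → ℝ) (x : Fin d → ZMod L) :
    ws J x (rho i c x) * et i c h x ^ 2
      ≤ J / 2 * (PP i c x * h x i ^ 2 + MM i c x * h (x - ee i) i ^ 2) := by
  rw [ws_rho hL2]
  unfold et
  rcases PP_cases i c x with h1 | h1 <;> rcases MM_cases i c x with h2 | h2 <;>
    rw [h1, h2]
  · simp
  · apply le_of_eq; field_simp; ring
  · apply le_of_eq; field_simp; ring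
  · nlinarith [mul_nonneg hJ (sq_nonneg (h x i + h (x - ee i) i))]

lemma rho_sum (i : Fin d) (c : ZMod L) (F : (Fin d → ZMod L) → ℝ) :
    ∑ x, F (rho i c x) = ∑ x, F x := by
  have hinv : Function.Involutive (rho i c : (Fin d → ZMod L) → (Fin d → ZMod L)) :=
    rho_rho i c
  exact Equiv.sum_comp hinv.toPerm F

lemma add_sum (i : Fin d) (F : (Fin d → ZMod L) → ℝ) :
    ∑ x, F (x + ee i) = ∑ x, F x :=
  Equiv.sum_comp (Equiv.addRight (ee i : Fin d → ZMod L)) F

lemma sum_rf_j (i : Fin d) (c : ZMod L)
    (h : (Fin d → ZMod L) → Fin d → ℝ) {j : Fin d} (hj : j ≠ i) :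
    (∑ x, rf i c true h x j ^ 2) + (∑ x, rf i c false h x j ^ 2) = 2 * ∑ x, h x j ^ 2 := by
  have e : ∀ x, rf i c true h x j ^ 2 + rf i c false h x j ^ 2
      = h x j ^ 2 + h (rho i c x) j ^ 2 := by
    intro x
    unfold rf
    simp only [if_neg hj]
    cases side i c x <;> simp
    ring
  rw [← Finset.sum_add_distrib, Finset.sum_congr rfl fun x _ => e x, Finset.sum_add_distrib,
    rho_sum i c (fun x => h x j ^ 2)]
  ring

lemma sum_rf_i (hL2 : Even L) (i : Fin d) (c : ZMod L)
    (h : (Fin d → ZMod L) → Fin d → ℝ) :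
    (∑ x, rf i c true h x i ^ 2) + (∑ x, rf i c false h x i ^ 2)
      = 2 * ∑ x, (1 - PP i c x) * h x i ^ 2 := by
  have e : ∀ x, rf i c true h x i ^ 2 + rf i c false h x i ^ 2
      = (1 - PP i c x) * h x i ^ 2
        + (1 - PP i c (rho i c (x + ee i))) * h (rho i c (x + ee i)) i ^ 2 := by
    intro x
    have hP : PP i c (rho i c (x + ee i)) = PP i c x := by
      rw [PP_rho, MM_eq]; simp
    rw [hP]
    unfold rf
    simp only [if_true]
    by_cases hc : x + ee i = rho i c x
    · have h1 := (cross_iff hL2 i c x).2 hc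
      have hP1 : PP i c x = 1 := by unfold PP; rw [if_pos hc]
      rw [hP1]
      revert h1
      cases side i c x <;> cases side i c (x + ee i) <;> simp
    · have h1 : side i c (x + ee i) = side i c x := by
        by_contra h'
        exact hc ((cross_iff hL2 i c x).1 h')
      have hP1 : PP i c x = 0 := by unfold PP; rw [if_neg hc]
      rw [hP1, h1]
      cases side i c x <;> simp
      ring
  rw [← Finset.sum_add_distrib, Finset.sum_congr rfl fun x _ => e x, Finset.sum_add_distrib,
    add_sum i (fun y => (1 - PP i c (rho i c y)) * h (rho i c y) i ^ 2),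
    rho_sum i c (fun y => (1 - PP i c y) * h y i ^ 2)]
  ring

lemma sum_et (hL2 : Even L) {J : ℝ} (hJ : 0 ≤ J) (i : Fin d) (c : ZMod L)
    (h : (Fin d → ZMod L) → Fin d → ℝ) :
    (∑ x, if side i c x then ws J x (rho i c x) * et i c h x ^ 2 else 0)
      ≤ J / 2 * ∑ x, PP i c x * h x i ^ 2 := by
  have h1 : (∑ x, if side i c x then ws J x (rho i c x) * et i c h x ^ 2 else 0)
      ≤ ∑ x, (J / 2 * (if side i c x then PP i c x * h x i ^ 2 else 0)
        + J / 2 * (if side i c x then MM i c x * h (x - ee i) i ^ 2 else 0)) := by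
    refine Finset.sum_le_sum fun x _ => ?_
    have := ws_et_sq hL2 hJ i c h x
    split_ifs
    · linarith
    · simp
  have h2 : (∑ x, (if side i c x then MM i c x * h (x - ee i) i ^ 2 else 0))
      = ∑ x, (if side i c x then 0 else PP i c x * h x i ^ 2) := by
    rw [← add_sum i (fun x => if side i c x then MM i c x * h (x - ee i) i ^ 2 else 0)]
    refine Finset.sum_congr rfl fun x _ => ?_
    rw [MM_eq, add_sub_cancel_right]
    by_cases hc : x + ee i = rho i c x
    · have h3 := (cross_iff hL2 i c x).2 hc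
      revert h3
      cases side i c x <;> cases side i c (x + ee i) <;> simp
    · have hP1 : PP i c x = 0 := by unfold PP; rw [if_neg hc]
      rw [hP1]; simp
  refine h1.trans (le_of_eq ?_)
  rw [Finset.sum_add_distrib, ← Finset.mul_sum, ← Finset.mul_sum, h2, ← mul_add,
    ← Finset.sum_add_distrib]
  congr 1
  refine Finset.sum_congr rfl fun x _ => ?_
  split_ifs <;> simp

/-- The comparison of the constants. -/
lemma const_le (hL2 : Even L) {J : ℝ} (hJ : 0 ≤ J) (i : Fin d) (c : ZMod L)
    (h : (Fin d → ZMod L) → Fin d → ℝ) :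
    (J / 2 * (∑ x, ∑ j, rf i c true h x j ^ 2) + J / 2 * (∑ x, ∑ j, rf i c false h x j ^ 2)) / 2
      + (∑ x, if side i c x then ws J x (rho i c x) * et i c h x ^ 2 else 0)
      ≤ J / 2 * ∑ x, ∑ j, h x j ^ 2 := by
  have h1 := sum_et hL2 hJ i c h
  have split : ∀ g : (Fin d → ZMod L) → Fin d → ℝ, (∑ x, ∑ j, g x j ^ 2)
      = (∑ x, g x i ^ 2) + ∑ j ∈ Finset.univ.erase i, ∑ x, g x j ^ 2 := by
    intro g
    rw [Finset.sum_comm, ← Finset.add_sum_erase _ _ (Finset.mem_univ i)]
  have h2 : (∑ x, ∑ j, rf i c true h x j ^ 2) + (∑ x, ∑ j, rf i c false h x j ^ 2)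
      = 2 * (∑ x, (1 - PP i c x) * h x i ^ 2)
        + 2 * ∑ j ∈ Finset.univ.erase i, ∑ x, h x j ^ 2 := by
    rw [split, split, ← sum_rf_i hL2 i c h]
    have : (∑ j ∈ Finset.univ.erase i, ∑ x, rf i c true h x j ^ 2)
        + (∑ j ∈ Finset.univ.erase i, ∑ x, rf i c false h x j ^ 2)
        = 2 * ∑ j ∈ Finset.univ.erase i, ∑ x, h x j ^ 2 := by
      rw [← Finset.sum_add_distrib, Finset.mul_sum]
      refine Finset.sum_congr rfl fun j hj => ?_
      exact sum_rf_j i c h (Finset.ne_of_mem_erase hj)
    linarith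
  have h3 : (∑ x, (1 - PP i c x) * h x i ^ 2) + ∑ x, PP i c x * h x i ^ 2
      = ∑ x, h x i ^ 2 := by
    rw [← Finset.sum_add_distrib]
    refine Finset.sum_congr rfl fun x _ => ?_
    ring
  have h4 := split h
  calc _ = J / 4 * ((∑ x, ∑ j, rf i c true h x j ^ 2) + (∑ x, ∑ j, rf i c false h x j ^ 2))
        + (∑ x, if side i c x then ws J x (rho i c x) * et i c h x ^ 2 else 0) := by ring
    _ ≤ J / 4 * (2 * (∑ x, (1 - PP i c x) * h x i ^ 2)
        + 2 * ∑ j ∈ Finset.univ.erase i, ∑ x, h x j ^ 2)
        + J / 2 * ∑ x, PP i c x * h x i ^ 2 := by rw [h2]; linarith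
    _ = J / 2 * (((∑ x, (1 - PP i c x) * h x i ^ 2) + ∑ x, PP i c x * h x i ^ 2)
        + ∑ j ∈ Finset.univ.erase i, ∑ x, h x j ^ 2) := by ring
    _ = _ := by rw [h3, h4]

lemma nr_nonneg {V : Type} [Fintype V] [DecidableEq V] (ψ : (V → ℤ) → ℝ) : 0 ≤ nr ψ :=
  tsum_nonneg fun n => sq_nonneg (ψ n)

end Torus

/-- QR/REFL. -/
theorem main (hB : S_BAS) (h : S_RPV) : S_REFL := by
  intro d L _ U J h₀ i c E E' hL2 hJ hE hE' ψ hψ
  have hr := @h (Fin d → ZMod L) _ _ U (ws J) (rho i c) (side i c) (kf J h₀) (et i c h₀)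
    (E - J / 2 * ∑ x, ∑ j, rf i c true h₀ x j ^ 2)
    (E' - J / 2 * ∑ x, ∑ j, rf i c false h₀ x j ^ 2)
    (rho_rho i c) (side_rho hL2 i c)
    (fun x => by
      rw [ws_rho hL2]
      have h1 : 0 ≤ PP i c x := by rcases PP_cases i c x with h | h <;> rw [h]; norm_num
      have h2 : 0 ≤ MM i c x := by rcases MM_cases i c x with h | h <;> rw [h]; norm_num
      positivity)
    (ws_rho_rho J i c) (ws_comm J) (ws_zero hL2 J i c)
    (fun φ hφ => by
      have e : (fun x => if side i c x = true then kf J h₀ x - 2 * ws J x (rho i c x) * et i c h₀ x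
          else kf J h₀ (rho i c x) - 2 * ws J x (rho i c x) * et i c h₀ (rho i c x))
          = kf J (rf i c true h₀) := by
        funext x
        by_cases hs : side i c x = true
        · rw [if_pos hs, ws_et hL2, kf_cut hL2 J i c true h₀ x hs]
        · rw [if_neg hs]
          have hs' : side i c (rho i c x) = true := by
            rw [side_rho hL2]; exact bne_iff.1 hs
          have h1 := kf_cut hL2 J i c true h₀ (rho i c x) hs'
          have h2 := ws_et hL2 J i c h₀ (rho i c x)
          rw [rho_rho, ws_comm] at h2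
          rw [← kf_rf_rho hL2 J i c true h₀ x, h1, h2]
      have h1 := hE φ hφ
      rw [GK_eq hB] at h1
      rw [e]
      linarith)
    (fun φ hφ => by
      have e : (fun x => if side i c x = true then
            kf J h₀ (rho i c x) + 2 * ws J x (rho i c x) * et i c h₀ x
          else kf J h₀ x + 2 * ws J x (rho i c x) * et i c h₀ (rho i c x))
          = kf J (rf i c false h₀) := by
        have key : ∀ x, side i c x = false → kf J (rf i c false h₀) x
            = kf J h₀ x + 2 * ws J x (rho i c x) * et i c h₀ (rho i c x) := by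
          intro x hs
          have h1 := kf_cut hL2 J i c false h₀ x hs
          have h2 := ws_et hL2 J i c h₀ (rho i c x)
          rw [rho_rho, ws_comm, PP_rho, MM_rho] at h2
          rw [h1, h2]
          have h3 : PP i c x * h₀ x i = PP i c x * h₀ (rho i c x - ee i) i := by
            unfold PP
            by_cases hc : x + ee i = rho i c x
            · rw [← hc]; simp
            · rw [if_neg hc]; simp
          have h4 : MM i c x * h₀ (x - ee i) i = MM i c x * h₀ (rho i c x) i := by
            unfold MM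
            by_cases hc : x - ee i = rho i c x
            · rw [← hc]
            · rw [if_neg hc]; simp
          rw [h3, h4]; ring
        funext x
        by_cases hs : side i c x = true
        · rw [if_pos hs]
          have hs' : side i c (rho i c x) = false := by
            rw [side_rho hL2, hs]; rfl
          have h1 := key (rho i c x) hs'
          rw [kf_rf_rho hL2, rho_rho, ws_comm] at h1
          rw [h1]
        · rw [if_neg hs, key x (by simpa using hs)]
      have h1 := hE' φ hφ
      rw [GK_eq hB] at h1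
      rw [e]
      linarith)
    ψ hψ
  rw [GK_eq hB]
  have hc := mul_le_mul_of_nonneg_right (const_le hL2 hJ i c h₀) (nr_nonneg ψ)
  linarith

end Pool.Agent.N664.QR_REFL
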