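import Pool.Agent.N657.QL.Stm

/-!
# QL/OPR: multiplication of the ground state by a trigonometric polynomial
-/

set_option linter.unusedSectionVars false
set_option linter.style.haveILetI false

namespace Pool.Agent.N664.QL_OPR

open Pool.Agent.N657
open MeasureTheory
open Pool.Agent.N657.QR hiding sq
open Pool.Agent.N657.QL

section

variable {V : Type} [Fintype V] [DecidableEq V]

/-! ### Shifts and summability -/

lemma sqnn (n : V → ℤ) : 0 ≤ QR.sq n := Finset.sum_nonneg fun _ _ => sq_nonneg _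

lemma sq_add_le (a b : V → ℤ) : QR.sq (a + b) ≤ 2 * QR.sq a + 2 * QR.sq b := by
  unfold QR.sq
  rw [Finset.mul_sum, Finset.mul_sum, ← Finset.sum_add_distrib]
  refine Finset.sum_le_sum fun x _ => ?_
  simp only [Pi.add_apply]
  push_cast
  nlinarith [sq_nonneg ((a x : ℝ) - b x)]

lemma sq_par (m a b : V → ℤ) :
    QR.sq m - QR.sq (m - a) + (QR.sq (m - a - b) - QR.sq (m - b)) = 2 * ∑ x, (a x : ℝ) * b x := by
  unfold QR.sq
  rw [Finset.mul_sum, ← Finset.sum_sub_distrib, ← Finset.sum_sub_distrib,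
    ← Finset.sum_add_distrib]
  refine Finset.sum_congr rfl fun x _ => ?_
  simp only [Pi.sub_apply]
  push_cast
  ring

lemma summ_shift {f : (V → ℤ) → ℝ} (hf : Summable f) (ζ : V → ℤ) :
    Summable fun n => f (n - ζ) :=
  (Equiv.subRight ζ).summable_iff.2 hf

lemma tsum_shift (f : (V → ℤ) → ℝ) (ζ : V → ℤ) : ∑' n, f (n - ζ) = ∑' n, f n :=
  (Equiv.subRight ζ).tsum_eq f

lemma summ0 {Ψ : (V → ℤ) → ℝ} (h : FE Ψ) (ζ ζ' : V → ℤ) :
    Summable fun n => Ψ (n - ζ) * Ψ (n - ζ') := by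
  have h1 := summ_shift h.1 ζ
  have h2 := summ_shift h.1 ζ'
  refine Summable.of_norm_bounded (h1.add h2) fun n => ?_
  rw [Real.norm_eq_abs, abs_le]
  constructor <;> nlinarith [sq_nonneg (Ψ (n - ζ) + Ψ (n - ζ')),
    sq_nonneg (Ψ (n - ζ) - Ψ (n - ζ')), sq_nonneg (Ψ (n - ζ)), sq_nonneg (Ψ (n - ζ'))]

lemma summ1 {Ψ : (V → ℤ) → ℝ} (h : FE Ψ) (α ζ ζ' : V → ℤ) :
    Summable fun n => QR.sq (n - α) * (Ψ (n - ζ) * Ψ (n - ζ')) := by
  have hs : ∀ ζ : V → ℤ, Summable fun n => QR.sq (n - α) * Ψ (n - ζ) ^ 2 := by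
    intro ζ
    have h1 := ((summ_shift h.2 ζ).mul_left 2).add
      ((summ_shift h.1 ζ).mul_left (2 * QR.sq (ζ - α)))
    refine Summable.of_nonneg_of_le (fun n => mul_nonneg (sqnn _) (sq_nonneg _)) (fun n => ?_) h1
    have h2 := sq_add_le (n - ζ) (ζ - α)
    rw [sub_add_sub_cancel] at h2
    have h3 := mul_le_mul_of_nonneg_right h2 (sq_nonneg (Ψ (n - ζ)))
    linarith
  refine Summable.of_norm_bounded ((hs ζ).add (hs ζ')) fun n => ?_
  rw [norm_mul, Real.norm_eq_abs, abs_of_nonneg (sqnn _), ← mul_add]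
  refine mul_le_mul_of_nonneg_left ?_ (sqnn _)
  rw [Real.norm_eq_abs, abs_le]
  constructor <;> nlinarith [sq_nonneg (Ψ (n - ζ) + Ψ (n - ζ')),
    sq_nonneg (Ψ (n - ζ) - Ψ (n - ζ')), sq_nonneg (Ψ (n - ζ)), sq_nonneg (Ψ (n - ζ'))]

lemma summ2 {Ψ : (V → ℤ) → ℝ} (h : FE Ψ) (ζ ζ' : V → ℤ) :
    Summable fun n => QR.sq n * (Ψ (n - ζ) * Ψ (n - ζ')) := by
  have := summ1 h 0 ζ ζ'
  simpa using this

/-- `∑ Ψ (n + η) Ψ n` -/
noncomputable def kk (Ψ : (V → ℤ) → ℝ) (η : V → ℤ) : ℝ := ∑' n, Ψ (n + η) * Ψ n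

lemma kk_shift (Ψ : (V → ℤ) → ℝ) (ζ ζ' : V → ℤ) :
    ∑' n, Ψ (n - ζ) * Ψ (n - ζ') = kk Ψ (ζ' - ζ) := by
  unfold kk
  rw [← tsum_shift (fun n => Ψ (n + (ζ' - ζ)) * Ψ n) ζ']
  refine tsum_congr fun n => ?_
  simp only [sub_add_sub_cancel]

/-- the energy of a pair of shifts -/
noncomputable def G (Ψ : (V → ℤ) → ℝ) (ζ ζ' : V → ℤ) : ℝ :=
  ∑' n, (QR.sq n - QR.sq (n - ζ)) * (Ψ (n - ζ) * Ψ (n - ζ'))

lemma G_summ {Ψ : (V → ℤ) → ℝ} (h : FE Ψ) (ζ ζ' : V → ℤ) :
    Summable fun n => (QR.sq n - QR.sq (n - ζ)) * (Ψ (n - ζ) * Ψ (n - ζ')) := by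
  refine ((summ2 h ζ ζ').sub (summ1 h ζ ζ ζ')).congr fun n => ?_
  ring

lemma G_add {Ψ : (V → ℤ) → ℝ} (h : FE Ψ) (ζ ζ' : V → ℤ) :
    G Ψ ζ ζ' + G Ψ (-ζ) (-ζ') = 2 * (∑ x, (ζ x : ℝ) * ζ' x) * kk Ψ (ζ' - ζ) := by
  have e1 : G Ψ (-ζ) (-ζ') =
      ∑' n, (QR.sq (n - ζ - ζ') - QR.sq (n - ζ')) * (Ψ (n - ζ) * Ψ (n - ζ')) := by
    unfold G
    rw [← tsum_shift (fun n => (QR.sq n - QR.sq (n - -ζ)) * (Ψ (n - -ζ) * Ψ (n - -ζ'))) (ζ + ζ')]
    refine tsum_congr fun n => ?_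
    have a1 : n - (ζ + ζ') = n - ζ - ζ' := by abel
    have a2 : n - ζ - ζ' - -ζ = n - ζ' := by abel
    have a3 : n - ζ - ζ' - -ζ' = n - ζ := by abel
    rw [a1, a2, a3]
    ring
  have s1 : Summable fun n => (QR.sq (n - ζ - ζ') - QR.sq (n - ζ')) * (Ψ (n - ζ) * Ψ (n - ζ')) := by
    refine ((summ1 h (ζ + ζ') ζ ζ').sub (summ1 h ζ' ζ ζ')).congr fun n => ?_
    have a1 : n - (ζ + ζ') = n - ζ - ζ' := by abel
    rw [a1]
    ring
  rw [e1]
  unfold G
  rw [← (G_summ h ζ ζ').tsum_add s1, ← kk_shift, ← tsum_mul_left]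
  refine tsum_congr fun n => ?_
  rw [← add_mul, sq_par]

/-! ### Finite combinations of shifts -/

variable {ι : Type} [Fintype ι]

/-- `∑ p_i Ψ (n - z_i)` -/
noncomputable def sh (Ψ : (V → ℤ) → ℝ) (z : ι → V → ℤ) (p : ι → ℝ) (n : V → ℤ) : ℝ :=
  ∑ i, p i * Ψ (n - z i)

lemma sh_mul (Ψ : (V → ℤ) → ℝ) (z : ι → V → ℤ) (p : ι → ℝ) (κ n : V → ℤ) :
    sh Ψ z p (n + κ) * sh Ψ z p n =
      ∑ i, ∑ j, p i * p j * (Ψ (n - (z i - κ)) * Ψ (n - z j)) := by
  unfold sh
  rw [Finset.sum_mul_sum]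
  refine Finset.sum_congr rfl fun i _ => Finset.sum_congr rfl fun j _ => ?_
  have : n + κ - z i = n - (z i - κ) := by abel
  rw [this]
  ring

lemma sh_sq (Ψ : (V → ℤ) → ℝ) (z : ι → V → ℤ) (p : ι → ℝ) (n : V → ℤ) :
    sh Ψ z p n ^ 2 = ∑ i, ∑ j, p i * p j * (Ψ (n - z i) * Ψ (n - z j)) := by
  have := sh_mul Ψ z p 0 n
  simp only [add_zero, sub_zero] at this
  rw [_root_.sq, this]

lemma sh_FE {Ψ : (V → ℤ) → ℝ} (h : FE Ψ) (z : ι → V → ℤ) (p : ι → ℝ) : FE (sh Ψ z p) := by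
  constructor
  · simp_rw [sh_sq]
    exact summable_sum fun i _ => summable_sum fun j _ => (summ0 h (z i) (z j)).mul_left _
  · have : (fun n => QR.sq n * sh Ψ z p n ^ 2) =
        fun n => ∑ i, ∑ j, p i * p j * (QR.sq n * (Ψ (n - z i) * Ψ (n - z j))) := by
      funext n
      rw [sh_sq, Finset.mul_sum]
      refine Finset.sum_congr rfl fun i _ => ?_
      rw [Finset.mul_sum]
      refine Finset.sum_congr rfl fun j _ => ?_
      ring
    rw [this]
    exact summable_sum fun i _ => summable_sum fun j _ => (summ2 h (z i) (z j)).mul_left _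

lemma tsum_dbl (f : ι → ι → (V → ℤ) → ℝ) (hf : ∀ i j, Summable (f i j)) :
    ∑' n, ∑ i, ∑ j, f i j n = ∑ i, ∑ j, ∑' n, f i j n := by
  rw [Summable.tsum_finsetSum fun i _ => summable_sum fun j _ => hf i j]
  refine Finset.sum_congr rfl fun i _ => ?_
  rw [Summable.tsum_finsetSum fun j _ => hf i j]

lemma gen1 {Ψ : (V → ℤ) → ℝ} (h : FE Ψ) (z : ι → V → ℤ) (p : ι → ℝ) (κ : V → ℤ) :
    ∑' n, sh Ψ z p (n + κ) * sh Ψ z p n = ∑ i, ∑ j, p i * p j * kk Ψ (z j - z i + κ) := by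
  simp_rw [sh_mul]
  rw [tsum_dbl _ fun i j => (summ0 h _ _).mul_left _]
  refine Finset.sum_congr rfl fun i _ => Finset.sum_congr rfl fun j _ => ?_
  rw [tsum_mul_left, kk_shift]
  congr 2
  abel

/-- scalar product -/
noncomputable def dt (η : V → ℤ) (θ : V → ℝ) : ℝ := ∑ x, (η x : ℝ) * θ x

lemma dt_add (a b : V → ℤ) (θ : V → ℝ) : dt (a + b) θ = dt a θ + dt b θ := by
  unfold dt
  rw [← Finset.sum_add_distrib]
  refine Finset.sum_congr rfl fun x _ => ?_
  simp only [Pi.add_apply]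
  push_cast
  ring

lemma dt_sub (a b : V → ℤ) (θ : V → ℝ) : dt (a - b) θ = dt a θ - dt b θ := by
  unfold dt
  rw [← Finset.sum_sub_distrib]
  refine Finset.sum_congr rfl fun x _ => ?_
  simp only [Pi.sub_apply]
  push_cast
  ring

lemma dt_neg (a : V → ℤ) (θ : V → ℝ) : dt (-a) θ = -dt a θ := by
  unfold dt
  rw [← Finset.sum_neg_distrib]
  refine Finset.sum_congr rfl fun x _ => ?_
  simp only [Pi.neg_apply]
  push_cast
  ring

lemma dt_cont (a : V → ℤ) : Continuous fun θ : V → ℝ => dt a θ := by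
  unfold dt
  fun_prop

lemma cos_int {μ : Measure (V → ℝ)} [IsProbabilityMeasure μ] (η : V → ℤ) :
    Integrable (fun θ => Real.cos (dt η θ)) μ := by
  refine Integrable.of_bound (C := 1) ?_ ?_
  · exact (Real.continuous_cos.comp (dt_cont η)).aestronglyMeasurable
  · exact Filter.Eventually.of_forall fun θ => by
      rw [Real.norm_eq_abs]; exact Real.abs_cos_le_one _

lemma sin_int {μ : Measure (V → ℝ)} [IsProbabilityMeasure μ] (η : V → ℤ) :
    Integrable (fun θ => Real.sin (dt η θ)) μ := by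
  refine Integrable.of_bound (C := 1) ?_ ?_
  · exact (Real.continuous_sin.comp (dt_cont η)).aestronglyMeasurable
  · exact Filter.Eventually.of_forall fun θ => by
      rw [Real.norm_eq_abs]; exact Real.abs_sin_le_one _

lemma int4 {μ : Measure (V → ℝ)} [IsProbabilityMeasure μ] (A B C D : ℝ) (a b c d : V → ℤ) :
    ∫ θ, (A * Real.cos (dt a θ) + B * Real.cos (dt b θ) + C * Real.sin (dt c θ)
      + D * Real.sin (dt d θ)) ∂μ = A * (∫ θ, Real.cos (dt a θ) ∂μ)
      + B * (∫ θ, Real.cos (dt b θ) ∂μ) + C * (∫ θ, Real.sin (dt c θ) ∂μ)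
      + D * ∫ θ, Real.sin (dt d θ) ∂μ := by
  have hA : Integrable (fun θ => A * Real.cos (dt a θ)) μ := (cos_int a).const_mul A
  have hB : Integrable (fun θ => B * Real.cos (dt b θ)) μ := (cos_int b).const_mul B
  have hC : Integrable (fun θ => C * Real.sin (dt c θ)) μ := (sin_int c).const_mul C
  have hD : Integrable (fun θ => D * Real.sin (dt d θ)) μ := (sin_int d).const_mul D
  have h12 : Integrable (fun θ => A * Real.cos (dt a θ) + B * Real.cos (dt b θ)) μ := hA.add hB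
  have h123 : Integrable (fun θ => A * Real.cos (dt a θ) + B * Real.cos (dt b θ)
    + C * Real.sin (dt c θ)) μ := h12.add hC
  rw [integral_add h123 hD, integral_add h12 hC, integral_add hA hB, integral_const_mul,
    integral_const_mul, integral_const_mul, integral_const_mul]

/-- the trigonometric polynomial -/
noncomputable def RR (z : ι → V → ℤ) (p q : ι → ℝ) (θ : V → ℝ) : ℝ :=
  ∑ i, (p i * Real.cos (dt (z i) θ) - q i * Real.sin (dt (z i) θ))

/-- symmetric data -/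
structure Sy (z : ι → V → ℤ) (p q : ι → ℝ) (σ : ι → ι) : Prop where
  inv : Function.Involutive σ
  hz : ∀ i, z (σ i) = -z i
  hp : ∀ i, p (σ i) = p i
  hq : ∀ i, q (σ i) = -q i

lemma Sy.sum_comp {z : ι → V → ℤ} {p q : ι → ℝ} {σ : ι → ι} (s : Sy z p q σ) (f : ι → ℝ) :
    ∑ i, f (σ i) = ∑ i, f i := Equiv.sum_comp s.inv.toPerm f

lemma Sy.zero {z : ι → V → ℤ} {p q : ι → ℝ} {σ : ι → ι} (s : Sy z p q σ) (θ : V → ℝ) :
    ∑ i, (p i * Real.sin (dt (z i) θ) + q i * Real.cos (dt (z i) θ)) = 0 := by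
  have h := s.sum_comp (fun i => p i * Real.sin (dt (z i) θ) + q i * Real.cos (dt (z i) θ))
  have h2 : ∑ i, (p (σ i) * Real.sin (dt (z (σ i)) θ) + q (σ i) * Real.cos (dt (z (σ i)) θ)) =
      -∑ i, (p i * Real.sin (dt (z i) θ) + q i * Real.cos (dt (z i) θ)) := by
    rw [← Finset.sum_neg_distrib]
    refine Finset.sum_congr rfl fun i _ => ?_
    rw [s.hz, s.hp, s.hq, dt_neg, Real.sin_neg, Real.cos_neg]
    ring
  rw [h2] at h
  linarith

lemma Sy.sq_eq {z : ι → V → ℤ} {p q : ι → ℝ} {σ : ι → ι} (s : Sy z p q σ) (κ : V → ℤ)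
    (θ : V → ℝ) :
    Real.cos (dt κ θ) * RR z p q θ ^ 2 =
      ∑ i, ∑ j, ((p i * p j + q i * q j) / 2 * Real.cos (dt (z i - z j + κ) θ)
        + (p i * p j + q i * q j) / 2 * Real.cos (dt (z j - z i + κ) θ)
        + (p i * q j - q i * p j) / 2 * Real.sin (dt (z i - z j + κ) θ)
        + (p i * q j - q i * p j) / 2 * Real.sin (dt (z i - z j - κ) θ)) := by
  have h0 := s.zero θ
  have h1 : RR z p q θ ^ 2 = (∑ i, (p i * Real.cos (dt (z i) θ) - q i * Real.sin (dt (z i) θ))) *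
      (∑ j, (p j * Real.cos (dt (z j) θ) - q j * Real.sin (dt (z j) θ))) +
      (∑ i, (p i * Real.sin (dt (z i) θ) + q i * Real.cos (dt (z i) θ))) *
      (∑ j, (p j * Real.sin (dt (z j) θ) + q j * Real.cos (dt (z j) θ))) := by
    rw [h0, mul_zero, add_zero, ← _root_.sq]
    rfl
  rw [h1, Finset.sum_mul_sum, Finset.sum_mul_sum, ← Finset.sum_add_distrib, Finset.mul_sum]
  refine Finset.sum_congr rfl fun i _ => ?_
  rw [← Finset.sum_add_distrib, Finset.mul_sum]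
  refine Finset.sum_congr rfl fun j _ => ?_
  rw [dt_add, dt_add, dt_sub, dt_sub, dt_sub, dt_sub]
  generalize dt (z i) θ = A
  generalize dt (z j) θ = B
  generalize dt κ θ = C
  rw [Real.cos_add, Real.cos_add, Real.sin_add, Real.sin_sub (A - B) C, Real.cos_sub A B,
    Real.cos_sub B A, Real.sin_sub A B, Real.sin_sub B A]
  ring

lemma gen2 {Ψ : (V → ℤ) → ℝ} {μ : Measure (V → ℝ)} (hμ : IsMeas Ψ μ) {z : ι → V → ℤ}
    {p q : ι → ℝ} {σ : ι → ι} (s : Sy z p q σ) (κ : V → ℤ) :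
    ∫ θ, Real.cos (dt κ θ) * RR z p q θ ^ 2 ∂μ =
      ∑ i, ∑ j, (p i * p j + q i * q j) * kk Ψ (z j - z i + κ) := by
  haveI := hμ.1
  have hc : ∀ η : V → ℤ, ∫ θ, Real.cos (dt η θ) ∂μ = kk Ψ η := fun η => (hμ.2 η).1
  have hs : ∀ η : V → ℤ, ∫ θ, Real.sin (dt η θ) ∂μ = 0 := fun η => (hμ.2 η).2
  simp_rw [s.sq_eq κ]
  have int1 : ∀ i j, Integrable (fun θ : V → ℝ =>
      ((p i * p j + q i * q j) / 2 * Real.cos (dt (z i - z j + κ) θ)
        + (p i * p j + q i * q j) / 2 * Real.cos (dt (z j - z i + κ) θ)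
        + (p i * q j - q i * p j) / 2 * Real.sin (dt (z i - z j + κ) θ)
        + (p i * q j - q i * p j) / 2 * Real.sin (dt (z i - z j - κ) θ))) μ := by
    intro i j
    exact ((((cos_int _).const_mul _).add ((cos_int _).const_mul _)).add
      ((sin_int _).const_mul _)).add ((sin_int _).const_mul _)
  rw [integral_finsetSum _ fun i _ => integrable_finsetSum _ fun j _ => int1 i j]
  have e1 : ∀ i, ∫ θ, ∑ j, ((p i * p j + q i * q j) / 2 * Real.cos (dt (z i - z j + κ) θ)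
        + (p i * p j + q i * q j) / 2 * Real.cos (dt (z j - z i + κ) θ)
        + (p i * q j - q i * p j) / 2 * Real.sin (dt (z i - z j + κ) θ)
        + (p i * q j - q i * p j) / 2 * Real.sin (dt (z i - z j - κ) θ)) ∂μ =
      ∑ j, ((p i * p j + q i * q j) / 2 * kk Ψ (z i - z j + κ)
        + (p i * p j + q i * q j) / 2 * kk Ψ (z j - z i + κ)) := by
    intro i
    rw [integral_finsetSum _ fun j _ => int1 i j]
    refine Finset.sum_congr rfl fun j _ => ?_
    rw [int4, hc, hc, hs, hs]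
    ring
  rw [Finset.sum_congr rfl fun i _ => e1 i]
  simp_rw [Finset.sum_add_distrib]
  have e2 : ∑ i, ∑ j, (p i * p j + q i * q j) / 2 * kk Ψ (z i - z j + κ) =
      ∑ i, ∑ j, (p i * p j + q i * q j) / 2 * kk Ψ (z j - z i + κ) := by
    rw [Finset.sum_comm]
    refine Finset.sum_congr rfl fun i _ => Finset.sum_congr rfl fun j _ => ?_
    ring
  rw [e2, ← Finset.sum_add_distrib]
  refine Finset.sum_congr rfl fun i _ => ?_
  rw [← Finset.sum_add_distrib]
  refine Finset.sum_congr rfl fun j _ => ?_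
  ring

/-- the general identity for the shift by `κ` -/
lemma gen {Ψ : (V → ℤ) → ℝ} (h : FE Ψ) {μ : Measure (V → ℝ)} (hμ : IsMeas Ψ μ)
    {z : ι → V → ℤ} {p q : ι → ℝ} {σ : ι → ι} (s : Sy z p q σ) (κ : V → ℤ) :
    (∑' n, sh Ψ z p (n + κ) * sh Ψ z p n) + (∑' n, sh Ψ z q (n + κ) * sh Ψ z q n) =
      ∫ θ, Real.cos (dt κ θ) * RR z p q θ ^ 2 ∂μ := by
  rw [gen1 h, gen1 h, gen2 hμ s, ← Finset.sum_add_distrib]
  refine Finset.sum_congr rfl fun i _ => ?_
  rw [← Finset.sum_add_distrib]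
  refine Finset.sum_congr rfl fun j _ => ?_
  ring

/-! ### The derivative -/

lemma pd_RR (z : ι → V → ℤ) (p q : ι → ℝ) (x : V) (θ : V → ℝ) :
    pd x (RR z p q) θ = RR z (fun i => -(z i x : ℝ) * q i) (fun i => (z i x : ℝ) * p i) θ := by
  unfold pd
  have h1 : ∀ i, HasDerivAt (fun s : ℝ => dt (z i) (θ + s • (Pi.single x 1 : V → ℝ))) (z i x : ℝ) 0 := by
    intro i
    have e : (fun s : ℝ => dt (z i) (θ + s • (Pi.single x 1 : V → ℝ))) =
        fun s : ℝ => dt (z i) θ + s * (z i x : ℝ) := by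
      funext s
      unfold dt
      simp only [Pi.add_apply, Pi.smul_apply, smul_eq_mul, mul_add, Finset.sum_add_distrib]
      congr 1
      rw [Finset.sum_eq_single x]
      · simp; ring
      · intro y _ hy
        simp [hy]
      · intro hx
        exact absurd (Finset.mem_univ x) hx
    rw [e]
    have := ((hasDerivAt_id (0 : ℝ)).mul_const (z i x : ℝ)).const_add (dt (z i) θ)
    simpa using this
  have h0 : ∀ i, dt (z i) (θ + (0 : ℝ) • (Pi.single x 1 : V → ℝ)) = dt (z i) θ := by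
    intro i; simp
  have h2 : HasDerivAt (fun s : ℝ => RR z p q (θ + s • (Pi.single x 1 : V → ℝ)))
      (RR z (fun i => -(z i x : ℝ) * q i) (fun i => (z i x : ℝ) * p i) θ) 0 := by
    have hE : RR z (fun i => -(z i x : ℝ) * q i) (fun i => (z i x : ℝ) * p i) θ =
        ∑ i, (p i * (-Real.sin (dt (z i) (θ + (0 : ℝ) • (Pi.single x 1 : V → ℝ))) *
          (z i x : ℝ)) -
        q i * (Real.cos (dt (z i) (θ + (0 : ℝ) • (Pi.single x 1 : V → ℝ))) * (z i x : ℝ))) := by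
      unfold RR
      refine Finset.sum_congr rfl fun i _ => ?_
      rw [h0]
      ring
    rw [hE]
    unfold RR
    have h3 := HasDerivAt.fun_sum (u := Finset.univ) (x := (0 : ℝ))
      (A := fun i (s : ℝ) => p i * Real.cos (dt (z i) (θ + s • (Pi.single x 1 : V → ℝ))) -
        q i * Real.sin (dt (z i) (θ + s • (Pi.single x 1 : V → ℝ))))
      (A' := fun i => p i * (-Real.sin (dt (z i) (θ + (0 : ℝ) • (Pi.single x 1 : V → ℝ))) *
          (z i x : ℝ)) -
        q i * (Real.cos (dt (z i) (θ + (0 : ℝ) • (Pi.single x 1 : V → ℝ))) * (z i x : ℝ)))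
      (fun i _ => ((h1 i).cos.const_mul (p i)).sub ((h1 i).sin.const_mul (q i)))
    exact h3
  exact h2.deriv

lemma int_gr {Ψ : (V → ℤ) → ℝ} {μ : Measure (V → ℝ)} (hμ : IsMeas Ψ μ)
    {z : ι → V → ℤ} {p q : ι → ℝ} {σ : ι → ι} (s : Sy z p q σ) :
    ∫ θ, gr (RR z p q) θ ∂μ =
      ∑ i, ∑ j, (p i * p j + q i * q j) * ((∑ x, (z i x : ℝ) * z j x) * kk Ψ (z j - z i)) := by
  haveI := hμ.1
  have sx : ∀ x : V, Sy z (fun i => -(z i x : ℝ) * q i) (fun i => (z i x : ℝ) * p i) σ := by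
    intro x
    refine ⟨s.inv, s.hz, fun i => ?_, fun i => ?_⟩
    · rw [s.hz, s.hq]; simp only [Pi.neg_apply]; push_cast; ring
    · rw [s.hz, s.hp]; simp only [Pi.neg_apply]; push_cast; ring
  have h1 : ∀ x : V, ∫ θ, pd x (RR z p q) θ ^ 2 ∂μ =
      ∑ i, ∑ j, (p i * p j + q i * q j) * ((z i x : ℝ) * z j x * kk Ψ (z j - z i)) := by
    intro x
    have h2 := gen2 hμ (sx x) 0
    have e0 : ∀ θ : V → ℝ, Real.cos (dt (0 : V → ℤ) θ) = 1 := by
      intro θ; unfold dt; simp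
    simp only [e0, one_mul, add_zero] at h2
    simp_rw [pd_RR]
    rw [h2]
    refine Finset.sum_congr rfl fun i _ => Finset.sum_congr rfl fun j _ => ?_
    ring
  have hint : ∀ x : V, Integrable (fun θ => pd x (RR z p q) θ ^ 2) μ := by
    intro x
    simp_rw [pd_RR]
    have hcont : Continuous fun θ : V → ℝ =>
        RR z (fun i => -(z i x : ℝ) * q i) (fun i => (z i x : ℝ) * p i) θ := by
      unfold RR
      refine continuous_finsetSum _ fun i _ => ?_
      exact (continuous_const.mul (Real.continuous_cos.comp (dt_cont _))).sub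
        (continuous_const.mul (Real.continuous_sin.comp (dt_cont _)))
    refine Integrable.of_bound (C := (∑ i, (|-(z i x : ℝ) * q i| + |(z i x : ℝ) * p i|)) ^ 2)
      (hcont.pow 2).aestronglyMeasurable ?_
    refine Filter.Eventually.of_forall fun θ => ?_
    rw [norm_pow]
    refine pow_le_pow_left₀ (norm_nonneg _) ?_ 2
    unfold RR
    refine (norm_sum_le _ _).trans (Finset.sum_le_sum fun i _ => ?_)
    refine (norm_sub_le _ _).trans ?_
    refine add_le_add ?_ ?_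
    · exact (norm_mul _ _).le.trans
        (mul_le_of_le_one_right (norm_nonneg _) (Real.abs_cos_le_one _))
    · exact (norm_mul _ _).le.trans
        (mul_le_of_le_one_right (norm_nonneg _) (Real.abs_sin_le_one _))
  unfold gr
  rw [integral_finsetSum _ fun x _ => hint x, Finset.sum_congr rfl fun x _ => h1 x,
    Finset.sum_comm]
  refine Finset.sum_congr rfl fun i _ => ?_
  rw [Finset.sum_comm]
  refine Finset.sum_congr rfl fun j _ => ?_
  rw [← Finset.mul_sum, ← Finset.sum_mul]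

/-! ### The energy -/

lemma sum_G {Ψ : (V → ℤ) → ℝ} (h : FE Ψ) {z : ι → V → ℤ} {p q : ι → ℝ} {σ : ι → ι}
    (s : Sy z p q σ) :
    ∑ i, ∑ j, (p i * p j + q i * q j) * G Ψ (z i) (z j) =
      ∑ i, ∑ j, (p i * p j + q i * q j) * ((∑ x, (z i x : ℝ) * z j x) * kk Ψ (z j - z i)) := by
  have e1 : ∑ i, ∑ j, (p i * p j + q i * q j) * G Ψ (z i) (z j) =
      ∑ i, ∑ j, (p i * p j + q i * q j) * G Ψ (-z i) (-z j) := by
    rw [← s.sum_comp (fun i => ∑ j, (p i * p j + q i * q j) * G Ψ (z i) (z j))]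
    refine Finset.sum_congr rfl fun i _ => ?_
    rw [← s.sum_comp (fun j => (p (σ i) * p j + q (σ i) * q j) * G Ψ (z (σ i)) (z j))]
    refine Finset.sum_congr rfl fun j _ => ?_
    rw [s.hz, s.hz, s.hp, s.hp, s.hq, s.hq]
    ring
  have e2 : (∑ i, ∑ j, (p i * p j + q i * q j) * G Ψ (z i) (z j)) +
      (∑ i, ∑ j, (p i * p j + q i * q j) * G Ψ (-z i) (-z j)) =
      2 * ∑ i, ∑ j, (p i * p j + q i * q j) *
        ((∑ x, (z i x : ℝ) * z j x) * kk Ψ (z j - z i)) := by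
    rw [← Finset.sum_add_distrib, Finset.mul_sum]
    refine Finset.sum_congr rfl fun i _ => ?_
    rw [← Finset.sum_add_distrib, Finset.mul_sum]
    refine Finset.sum_congr rfl fun j _ => ?_
    rw [← mul_add, G_add h]
    ring
  linarith

lemma pot_one (U : ℝ) (n : V → ℤ) : pot (U • (1 : Matrix V V ℝ)) 0 n = U * QR.sq n := by
  unfold pot QR.sq
  rw [Finset.mul_sum]
  refine Finset.sum_congr rfl fun x _ => ?_
  rw [Finset.sum_eq_single x]
  · rw [Matrix.smul_apply, Matrix.one_apply_eq, Pi.zero_apply, smul_eq_mul]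
    ring
  · intro y _ hy
    rw [Matrix.smul_apply, Matrix.one_apply_ne hy.symm, smul_zero, zero_mul]
  · intro hx
    exact absurd (Finset.mem_univ x) hx

lemma hp_eq (x y : V) (n : V → ℤ) : hp x y n = n + (dl x - dl y) := by
  unfold hp; abel

lemma FF_sh (hB : S_BAS) {U E : ℝ} {w : V → V → ℝ} {Ψ : (V → ℤ) → ℝ} (h : FE Ψ)
    (heig : ∀ n, (U * QR.sq n - E) * Ψ n =
      (∑ x, ∑ y, w x y * (Ψ (hp x y n) + Ψ (hp y x n))) / 2) (z : ι → V → ℤ) (p : ι → ℝ) :
    FF (U • (1 : Matrix V V ℝ)) w 0 (sh Ψ z p) =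
      E * nr (sh Ψ z p) + U * ∑ i, ∑ j, p i * p j * G Ψ (z i) (z j) := by
  have hFE := sh_FE h z p
  set ψ := sh Ψ z p with hψ
  have s0 : Summable fun n => ψ n ^ 2 := hFE.1
  have s1 : Summable fun n => QR.sq n * ψ n ^ 2 := hFE.2
  have hpo : po (U • (1 : Matrix V V ℝ)) 0 ψ = ∑' n, U * (QR.sq n * ψ n ^ 2) := by
    unfold po
    refine tsum_congr fun n => ?_
    rw [pot_one]; ring
  have hcr : ∑ x, ∑ y, w x y * cr x y ψ =
      ∑' n, (∑ x, ∑ y, w x y * (ψ (hp x y n) + ψ (hp y x n))) / 2 * ψ n := by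
    have e1 : ∀ n, (∑ x, ∑ y, w x y * (ψ (hp x y n) + ψ (hp y x n))) / 2 * ψ n =
        ∑ x, ∑ y, (w x y / 2 * (ψ (hp x y n) * ψ n) + w x y / 2 * (ψ (hp y x n) * ψ n)) := by
      intro n
      rw [div_mul_eq_mul_div, Finset.sum_mul, Finset.sum_div]
      refine Finset.sum_congr rfl fun x _ => ?_
      rw [Finset.sum_mul, Finset.sum_div]
      refine Finset.sum_congr rfl fun y _ => ?_
      ring
    simp_rw [e1]
    have hs : ∀ x y : V, Summable fun n =>
        (w x y / 2 * (ψ (hp x y n) * ψ n) + w x y / 2 * (ψ (hp y x n) * ψ n)) := fun x y =>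
      ((hB.crsum x y ψ s0).mul_left _).add ((hB.crsum y x ψ s0).mul_left _)
    rw [tsum_dbl _ hs]
    refine Finset.sum_congr rfl fun x _ => Finset.sum_congr rfl fun y _ => ?_
    rw [((hB.crsum x y ψ s0).mul_left _).tsum_add ((hB.crsum y x ψ s0).mul_left _),
      tsum_mul_left, tsum_mul_left]
    have e2 : ∑' n, ψ (hp x y n) * ψ n = cr x y ψ := rfl
    have e3 : ∑' n, ψ (hp y x n) * ψ n = cr x y ψ := hB.crcomm y x ψ
    rw [e2, e3]; ring
  have hT : ∀ n, (∑ x, ∑ y, w x y * (ψ (hp x y n) + ψ (hp y x n))) / 2 =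
      ∑ i, p i * ((U * QR.sq (n - z i) - E) * Ψ (n - z i)) := by
    intro n
    simp_rw [heig]
    have e4 : ∀ x y : V, ∀ i, hp x y n - z i = hp x y (n - z i) := by
      intro x y i; rw [hp_eq, hp_eq]; abel
    have a1 : (∑ x, ∑ y, w x y * (ψ (hp x y n) + ψ (hp y x n))) / 2 =
        ∑ x, ∑ y, ∑ i, p i * (w x y * (Ψ (hp x y (n - z i)) + Ψ (hp y x (n - z i)))) / 2 := by
      rw [Finset.sum_div]
      refine Finset.sum_congr rfl fun x _ => ?_
      rw [Finset.sum_div]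
      refine Finset.sum_congr rfl fun y _ => ?_
      rw [hψ]
      unfold sh
      simp_rw [e4]
      rw [← Finset.sum_add_distrib, Finset.mul_sum, Finset.sum_div]
      refine Finset.sum_congr rfl fun i _ => ?_
      ring
    have a2 : ∑ x, ∑ y, ∑ i, p i * (w x y * (Ψ (hp x y (n - z i)) + Ψ (hp y x (n - z i)))) / 2 =
        ∑ i, ∑ x, ∑ y, p i * (w x y * (Ψ (hp x y (n - z i)) + Ψ (hp y x (n - z i)))) / 2 := by
      rw [Finset.sum_comm]
      refine Eq.trans (Finset.sum_congr rfl fun x _ => Finset.sum_comm) ?_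
      rw [Finset.sum_comm]
      refine Finset.sum_congr rfl fun i _ => ?_
      rw [Finset.sum_comm]
    rw [a1, a2]
    refine Finset.sum_congr rfl fun i _ => ?_
    rw [Finset.sum_div, Finset.mul_sum]
    refine Finset.sum_congr rfl fun x _ => ?_
    rw [Finset.sum_div, Finset.mul_sum]
    refine Finset.sum_congr rfl fun y _ => ?_
    ring
  have hsT : Summable fun n => (∑ x, ∑ y, w x y * (ψ (hp x y n) + ψ (hp y x n))) / 2 * ψ n := by
    have e1 : ∀ n, (∑ x, ∑ y, w x y * (ψ (hp x y n) + ψ (hp y x n))) / 2 * ψ n =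
        ∑ x, ∑ y, (w x y / 2 * (ψ (hp x y n) * ψ n) + w x y / 2 * (ψ (hp y x n) * ψ n)) := by
      intro n
      rw [div_mul_eq_mul_div, Finset.sum_mul, Finset.sum_div]
      refine Finset.sum_congr rfl fun x _ => ?_
      rw [Finset.sum_mul, Finset.sum_div]
      refine Finset.sum_congr rfl fun y _ => ?_
      ring
    simp_rw [e1]
    exact summable_sum fun x _ => summable_sum fun y _ =>
      ((hB.crsum x y ψ s0).mul_left _).add ((hB.crsum y x ψ s0).mul_left _)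
  have key : ∑' n, (U * (QR.sq n * ψ n ^ 2) - E * ψ n ^ 2 -
      (∑ x, ∑ y, w x y * (ψ (hp x y n) + ψ (hp y x n))) / 2 * ψ n) =
      U * ∑ i, ∑ j, p i * p j * G Ψ (z i) (z j) := by
    have e5 : ∀ n, U * (QR.sq n * ψ n ^ 2) - E * ψ n ^ 2 -
      (∑ x, ∑ y, w x y * (ψ (hp x y n) + ψ (hp y x n))) / 2 * ψ n =
      ∑ i, ∑ j, U * (p i * p j) * ((QR.sq n - QR.sq (n - z i)) * (Ψ (n - z i) * Ψ (n - z j))) := by
      intro n
      rw [hT]
      have e6 : U * (QR.sq n * ψ n ^ 2) - E * ψ n ^ 2 = ((U * QR.sq n - E) * ψ n) * ψ n := by ring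
      rw [e6, ← sub_mul]
      have e7 : (U * QR.sq n - E) * ψ n - ∑ i, p i * ((U * QR.sq (n - z i) - E) * Ψ (n - z i)) =
          ∑ i, U * p i * ((QR.sq n - QR.sq (n - z i)) * Ψ (n - z i)) := by
        rw [hψ]
        unfold sh
        rw [Finset.mul_sum, ← Finset.sum_sub_distrib]
        refine Finset.sum_congr rfl fun i _ => ?_
        ring
      rw [e7, hψ]
      unfold sh
      rw [Finset.sum_mul_sum]
      refine Finset.sum_congr rfl fun i _ => Finset.sum_congr rfl fun j _ => ?_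
      ring
    simp_rw [e5]
    rw [tsum_dbl _ fun i j => (G_summ h (z i) (z j)).mul_left _, Finset.mul_sum]
    refine Finset.sum_congr rfl fun i _ => ?_
    rw [Finset.mul_sum]
    refine Finset.sum_congr rfl fun j _ => ?_
    rw [tsum_mul_left]
    unfold G
    ring
  rw [((s1.mul_left U).sub (s0.mul_left E)).tsum_sub hsT, (s1.mul_left U).tsum_sub (s0.mul_left E),
    tsum_mul_left (a := E)] at key
  unfold FF nr
  rw [hpo, hcr]
  linarith

end

/-- QL/OPR. -/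
theorem main (hB : S_BAS) (hE : S_EIG) (hS : S_TPS) (_hT : S_TPB) : S_OPR := by
  intro V _ _ _ U w Ψ μ hU hw hG hμ R hR
  obtain ⟨S, a, b, hRS⟩ := hS R hR
  have hPD : (U • (1 : Matrix V V ℝ)).PosDef := Matrix.PosDef.one.smul hU
  have heig := (hE (U • (1 : Matrix V V ℝ)) w 0 0 Ψ hPD hw hG).1
  simp_rw [pot_one] at heig
  have hFE : FE Ψ := hG.1
  -- the data
  let z : S × Bool → V → ℤ := fun i => if i.2 then -(i.1 : V → ℤ) else (i.1 : V → ℤ)
  let p : S × Bool → ℝ := fun i => a i.1 / 2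
  let q : S × Bool → ℝ := fun i => if i.2 then b i.1 / 2 else -(b i.1 / 2)
  let σ : S × Bool → S × Bool := fun i => (i.1, !i.2)
  have s : Sy z p q σ := by
    refine ⟨fun i => ?_, fun i => ?_, fun i => rfl, fun i => ?_⟩
    · simp [σ]
    · rcases i with ⟨η, b'⟩
      cases b' <;> simp [z, σ]
    · rcases i with ⟨η, b'⟩
      cases b' <;> simp [q, σ]
  have hRR : R = RR z p q := by
    funext θ
    rw [hRS θ]
    unfold RR
    rw [Fintype.sum_prod_type, ← Finset.sum_coe_sort]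
    refine Finset.sum_congr rfl fun η _ => ?_
    rw [Fintype.sum_bool]
    simp only [z, p, q, if_true, Bool.false_eq_true, if_false]
    rw [dt_neg, Real.cos_neg, Real.sin_neg]
    unfold dt
    ring
  have g := fun κ => gen hFE hμ s κ
  have e0 : ∀ θ : V → ℝ, Real.cos (dt (0 : V → ℤ) θ) = 1 := by
    intro θ; unfold dt; simp
  have g0 : nr (sh Ψ z p) + nr (sh Ψ z q) = ∫ θ, R θ ^ 2 ∂μ := by
    have h1 := g 0
    simp only [e0, one_mul, add_zero] at h1
    rw [hRR, ← h1]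
    unfold nr
    simp_rw [_root_.sq]
  refine ⟨sh Ψ z p, sh Ψ z q, sh_FE hFE z p, sh_FE hFE z q, g0, ?_, ?_, ?_⟩
  · intro x y
    have h1 := g (dl x - dl y)
    have e1 : ∀ θ : V → ℝ, dt (dl x - dl y) θ = θ x - θ y := by
      intro θ
      rw [dt_sub]
      unfold dt dl
      simp [Pi.single_apply]
    simp only [e1] at h1
    rw [hRR, ← h1]
    unfold cr
    simp_rw [hp_eq]
  · intro x
    have h1 := g (dl x)
    have e1 : ∀ θ : V → ℝ, dt (dl x) θ = θ x := by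
      intro θ
      unfold dt dl
      simp [Pi.single_apply]
    simp only [e1] at h1
    rw [hRR, ← h1]
    rfl
  · rw [FF_sh hB hFE heig z p, FF_sh hB hFE heig z q, ← g0, hRR, int_gr hμ s, ← sum_G hFE s]
    have e2 : ∑ i, ∑ j, (p i * p j + q i * q j) * G Ψ (z i) (z j) =
        (∑ i, ∑ j, p i * p j * G Ψ (z i) (z j)) + ∑ i, ∑ j, q i * q j * G Ψ (z i) (z j) := by
      rw [← Finset.sum_add_distrib]
      refine Finset.sum_congr rfl fun i _ => ?_
      rw [← Finset.sum_add_distrib]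
      refine Finset.sum_congr rfl fun j _ => ?_
      ring
    rw [e2]
    ring

end Pool.Agent.N664.QL_OPR
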